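import Pool.Agent.RRG.Chart2

/-!
# Locally uniform limits of holomorphic maps
-/

set_option autoImplicit false

open Topology Filter

namespace Pool.Agent.RRG

open Pool.Agent.RR

/-- Cauchy estimate for the derivative -/
lemma norm_fderiv_le_of_ball {n N : ℕ} {g : (Fin n → ℂ) → (Fin N → ℂ)} (hg : Differentiable ℂ g)
    {x : Fin n → ℂ} {C : ℝ} (hC : ∀ y, dist y x ≤ 1 → ‖g y‖ ≤ C) : ‖fderiv ℂ g x‖ ≤ C := by
  have hC0 : 0 ≤ C := (norm_nonneg _).trans (hC x (by simp))
  refine ContinuousLinearMap.opNorm_le_of_unit_norm hC0 fun v hv => ?_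
  have h1 : HasDerivAt (fun ζ : ℂ => g (x + ζ • v)) (fderiv ℂ g x v) 0 := by
    have h2 : HasDerivAt (fun ζ : ℂ => x + ζ • v) v 0 := by
      have h3 : HasDerivAt (fun ζ : ℂ => ζ • v) ((1 : ℂ) • v) 0 :=
        (hasDerivAt_id (0 : ℂ)).smul_const v
      rw [one_smul] at h3
      exact h3.const_add x
    have h4 : HasFDerivAt g (fderiv ℂ g x) (x + (0 : ℂ) • v) := by
      rw [zero_smul, add_zero]
      exact (hg x).hasFDerivAt
    exact h4.comp_hasDerivAt (0 : ℂ) h2
  rw [← h1.deriv]
  have h2 : Differentiable ℂ fun ζ : ℂ => g (x + ζ • v) :=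
    hg.comp ((differentiable_const x).add (differentiable_id.smul_const v))
  have h3 := Complex.norm_deriv_le_of_forall_mem_sphere_norm_le (c := (0 : ℂ)) (R := 1) (C := C)
    one_pos h2.diffContOnCl (fun z hz => by
      apply hC
      rw [dist_eq_norm, add_sub_cancel_left, norm_smul, hv, mul_one]
      have : dist z 0 = 1 := hz
      rw [dist_zero_right] at this
      exact this.le)
  rwa [div_one] at h3

/-- locally uniform limits of entire maps are entire -/
theorem differentiable_of_tendstoLocallyUniformly {n N : ℕ}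
    {F : ℕ → (Fin n → ℂ) → (Fin N → ℂ)} {g : (Fin n → ℂ) → (Fin N → ℂ)}
    (hF : ∀ k, Differentiable ℂ (F k)) (h : TendstoLocallyUniformly F g atTop) :
    Differentiable ℂ g := by
  intro x₀
  have h1 : TendstoUniformlyOn F g atTop (Metric.closedBall x₀ 2) :=
    tendstoLocallyUniformly_iff_forall_isCompact.1 h _ (isCompact_closedBall x₀ 2)
  have h2 := h1.uniformCauchySeqOn
  have h3 : UniformCauchySeqOn (fun k => fderiv ℂ (F k)) atTop (Metric.ball x₀ 1) := by
    rw [Metric.uniformCauchySeqOn_iff] at h2 ⊢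
    intro ε hε
    obtain ⟨K, hK⟩ := h2 (ε / 2) (by positivity)
    refine ⟨K, fun k hk l hl x hx => ?_⟩
    have h4 : ‖fderiv ℂ (fun y => F k y - F l y) x‖ ≤ ε / 2 := by
      apply norm_fderiv_le_of_ball ((hF k).sub (hF l))
      intro y hy
      have h5 : y ∈ Metric.closedBall x₀ 2 := by
        rw [Metric.mem_closedBall]
        rw [Metric.mem_ball] at hx
        have := dist_triangle y x x₀
        linarith
      have h6 := hK k hk l hl y h5
      rw [dist_eq_norm] at h6
      exact h6.le
    have h5 : fderiv ℂ (fun y => F k y - F l y) x = fderiv ℂ (F k) x - fderiv ℂ (F l) x :=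
      fderiv_fun_sub (hF k x) (hF l x)
    rw [h5] at h4
    rw [dist_eq_norm]
    linarith
  have h4 : ∀ x ∈ Metric.ball x₀ 1, ∃ L, Tendsto (fun k => fderiv ℂ (F k) x) atTop (𝓝 L) := by
    intro x hx
    exact cauchySeq_tendsto_of_complete (h3.cauchySeq hx)
  choose! g' hg' using h4
  have h5 : TendstoUniformlyOn (fun k => fderiv ℂ (F k)) g' atTop (Metric.ball x₀ 1) :=
    h3.tendstoUniformlyOn_of_tendsto hg'
  have h6 : HasFDerivAt g (g' x₀) x₀ :=
    hasFDerivAt_of_tendstoUniformlyOn Metric.isOpen_ball h5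
      (fun k x _ => (hF k x).hasFDerivAt)
      (fun x hx => h1.tendsto_at (Metric.ball_subset_closedBall
        (Metric.ball_subset_ball (by norm_num) hx)))
      (Metric.mem_ball_self one_pos)
  exact h6.differentiableAt

variable {N : ℕ} {I : Ideal (MvPolynomial (Fin N) ℂ)}

lemma exists_lnd_basis {n : ℕ} (hn : 0 < n) (hsm : IsSmoothOfDim I n) (hfl : IsFlexible I)
    (x : variety I) : ∃ E : ℕ → LND (CoordRing I),
      LinearIndependent ℂ (fun j : Fin n => valueAt I (E j).D x) := by
  set S := {v : Fin N → ℂ | ∃ D, IsLND I D ∧ v = valueAt I D x} with hS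
  have hspan : Submodule.span ℂ S = tangentSpace I x := hfl x
  have hrank : Module.finrank ℂ (Submodule.span ℂ S) = n := by rw [hspan]; exact hsm.2 x
  obtain ⟨f, hfS, -, hf⟩ := Submodule.exists_fun_fin_finrank_span_eq ℂ S
  let f' : Fin n → Fin N → ℂ := fun j => f (Fin.cast hrank.symm j)
  have hf' : LinearIndependent ℂ f' := hf.comp _ (Fin.cast_injective _)
  choose D hD hDv using fun j : Fin n => hfS (Fin.cast hrank.symm j)
  refine ⟨fun k => if h : k < n then mkLND I (hD ⟨k, h⟩) else mkLND I (hD ⟨0, hn⟩), ?_⟩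
  have : (fun j : Fin n => valueAt I ((if h : (j : ℕ) < n then mkLND I (hD ⟨j, h⟩)
      else mkLND I (hD ⟨0, hn⟩)).D) x) = f' := by
    funext j
    rw [dif_pos j.2]
    exact (hDv j).symm
  rw [this]
  exact hf'

/-- **Locally uniform limits of holomorphic maps on a smooth flexible variety are holomorphic.** -/
theorem IsHolo.of_tendstoLocallyUniformly {n : ℕ} (hn : 0 < n) (hsm : IsSmoothOfDim I n)
    (hfl : IsFlexible I) {F : ℕ → variety I → (Fin N → ℂ)} {g : variety I → (Fin N → ℂ)}
    (hF : ∀ k, IsHolo (variety I) (F k)) (h : TendstoLocallyUniformly F g atTop) :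
    IsHolo (variety I) g := by
  intro x
  obtain ⟨E, hli⟩ := exists_lnd_basis hn hsm hfl x
  obtain ⟨τ, hτd, hτ0, hτ⟩ := exists_chart_inverse I hsm hfl E x hli
  have hcc : Continuous fun t : Fin n → ℂ => chart I E x t :=
    Continuous.subtype_mk (contDiff_chart I E x).continuous _
  have hcd : Differentiable ℂ fun t : Fin n → ℂ => (chart I E x t : Fin N → ℂ) :=
    (contDiff_chart I E x).differentiable one_ne_zero
  have h1 : ∀ k, Differentiable ℂ fun t : Fin n → ℂ => F k (chart I E x t) := by
    intro k t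
    obtain ⟨G, hG, hGe⟩ := hF k (chart I E x t)
    have h2 : ∀ᶠ s in 𝓝 t, F k (chart I E x s) = G (chart I E x s) := by
      have h3 : Tendsto (fun s : Fin n → ℂ => (chart I E x s : Fin N → ℂ)) (𝓝 t)
          (𝓝 (chart I E x t : Fin N → ℂ)) := (hcd t).continuousAt
      filter_upwards [h3.eventually hGe] with s hs
      exact hs (chart I E x s).2
    have h3 : DifferentiableAt ℂ (fun s : Fin n → ℂ => G (chart I E x s)) t :=
      DifferentiableAt.comp (f := fun s : Fin n → ℂ => (chart I E x s : Fin N → ℂ)) t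
        hG.self_of_nhds (hcd t)
    exact h3.congr_of_eventuallyEq h2
  have h2 : TendstoLocallyUniformly (fun k t => F k (chart I E x t))
      (fun t : Fin n → ℂ => g (chart I E x t)) atTop := h.comp _ hcc
  have h3 := differentiable_of_tendstoLocallyUniformly h1 h2
  refine ⟨fun y => g (chart I E x (τ y)), ?_, ?_⟩
  · filter_upwards [hτd] with y hy
    exact (h3 (τ y)).comp y hy
  · filter_upwards [hτ] with y hy hyX
    rw [hy hyX]

end Pool.Agent.RRG
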