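import Pool.Agent.RRG.Link2
import Pool.Agent.RRG.Limit

/-!
# Automorphisms close to the identity on a ball which connect linked points
-/

set_option autoImplicit false

open Topology Filter

namespace Pool.Agent.RRG

open Pool.Agent.RR

/-- a polynomial which is small on a disc and has a prescribed value outside, and prescribed
zeros in the disc -/
lemma exists_small_function {w₀ : ℂ} {M : ℝ} (hM : 0 ≤ M) (hw₀ : M < ‖w₀‖) (t : ℂ)
    (S : Finset ℂ) (hS : ∀ s ∈ S, ‖s‖ ≤ M) {η : ℝ} (hη : 0 < η) :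
    ∃ q : ℂ → ℂ, Differentiable ℂ q ∧ q w₀ = t ∧ (∀ s ∈ S, q s = 0) ∧
      ∀ w, ‖w‖ ≤ M → ‖q w‖ ≤ η := by
  have hw0 : w₀ ≠ 0 := by
    rintro rfl
    rw [norm_zero] at hw₀
    linarith
  set P : ℂ → ℂ := fun w => t * ∏ s ∈ S, ((w - s) / (w₀ - s)) with hP
  have hPd : Differentiable ℂ P := by
    apply Differentiable.const_mul
    apply Differentiable.fun_finsetProd
    intro i _
    exact (differentiable_id.sub_const _).div_const _
  have hP0 : ∀ s ∈ S, P s = 0 := by
    intro s hs
    simp only [hP]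
    rw [Finset.prod_eq_zero hs (by simp), mul_zero]
  have hPk : P w₀ = t := by
    simp only [hP]
    rw [Finset.prod_eq_one, mul_one]
    intro s hs
    apply div_self
    rw [sub_ne_zero]
    rintro rfl
    exact absurd (hS _ hs) (not_le.2 hw₀)
  obtain ⟨B, hB⟩ : ∃ B : ℝ, ∀ z ∈ Metric.closedBall (0 : ℂ) M, ‖P z‖ ≤ B :=
    (isCompact_closedBall _ _).exists_bound_of_continuousOn hPd.continuous.continuousOn
  have hB0 : 0 ≤ B := (norm_nonneg _).trans (hB 0 (by simpa using hM))
  have hρ : M / ‖w₀‖ < 1 := by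
    rw [div_lt_one (norm_pos_iff.2 hw0)]
    exact hw₀
  have hρ0 : 0 ≤ M / ‖w₀‖ := by positivity
  obtain ⟨m, hm⟩ : ∃ m : ℕ, B * (M / ‖w₀‖) ^ m ≤ η := by
    have h1 : Tendsto (fun m : ℕ => B * (M / ‖w₀‖) ^ m) atTop (𝓝 (B * 0)) :=
      (tendsto_pow_atTop_nhds_zero_of_lt_one hρ0 hρ).const_mul B
    rw [mul_zero] at h1
    have h2 : ∀ᶠ m : ℕ in atTop, B * (M / ‖w₀‖) ^ m < η := h1.eventually_lt_const hη
    obtain ⟨m, hm⟩ := h2.exists
    exact ⟨m, hm.le⟩
  refine ⟨fun z => P z * (z / w₀) ^ m, ?_, ?_, ?_, ?_⟩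
  · exact hPd.mul ((differentiable_id.div_const _).pow m)
  · simp only [hPk, div_self hw0, one_pow, mul_one]
  · intro s hs
    simp only [hP0 s hs, zero_mul]
  · intro w hw
    rw [norm_mul, norm_pow, norm_div]
    refine le_trans ?_ hm
    apply mul_le_mul
    · exact hB w (by simpa using hw)
    · exact pow_le_pow_left₀ (by positivity)
        (div_le_div_of_nonneg_right hw (norm_nonneg _)) m
    · positivity
    · exact hB0

variable {N : ℕ} {I : Ideal (MvPolynomial (Fin N) ℂ)}

/-- `θ` and its inverse are `ε`-close to the identity on the ball of radius `r` -/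
def Near (θ : Equiv.Perm (variety I)) (r ε : ℝ) : Prop :=
  ∀ z : variety I, ‖(z : Fin N → ℂ)‖ ≤ r →
    ‖(θ z : Fin N → ℂ) - z‖ < ε ∧ ‖(θ.symm z : Fin N → ℂ) - z‖ < ε

/-- one step can be realised by an automorphism close to the identity -/
theorem exists_near_of_step {R : ℝ} {x y : variety I} (h : Step R x y) (F : Finset (variety I))
    (hF : ∀ p ∈ F, ‖((p : variety I) : Fin N → ℂ)‖ ≤ R) {ε : ℝ} (hε : 0 < ε) :
    ∃ θ : Equiv.Perm (variety I), IsHoloAut (variety I) θ ∧ θ x = y ∧ (∀ p ∈ F, θ p = p) ∧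
      Near θ R ε := by
  classical
  obtain ⟨E, f, M, t, hf, hM, hx, rfl⟩ := h
  choose C hC0 hC using fun i : Fin N =>
    exists_flow_bound E (Ideal.Quotient.mk I (MvPolynomial.X i)) R
  set K := ∑ i, C i + 1 with hK
  have hK0 : 0 < K := by
    have := Finset.sum_nonneg (s := Finset.univ) fun i (_ : i ∈ Finset.univ) => hC0 i
    linarith
  set η := min 1 (ε / (2 * K)) with hη
  have hη0 : 0 < η := lt_min one_pos (by positivity)
  obtain ⟨q, hqd, hqx, hqF, hqM⟩ := exists_small_function hM.1 hx t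
    (F.image fun p => evalAt I p f) (by
      intro s hs
      obtain ⟨p, hp, rfl⟩ := Finset.mem_image.1 hs
      exact hM.2 p (hF p hp)) hη0
  -- the distance estimate
  have hdist : ∀ z : variety I, ‖(z : Fin N → ℂ)‖ ≤ R → ∀ s : ℂ, ‖s‖ ≤ η →
      ‖(toPt I (E.flow s (evalAt I z)) : Fin N → ℂ) - z‖ < ε := by
    intro z hz s hs
    have h1 : ‖(toPt I (E.flow s (evalAt I z)) : Fin N → ℂ) - z‖ ≤ K * η := by
      rw [pi_norm_le_iff_of_nonneg (by positivity)]
      intro i
      have h2 : ((toPt I (E.flow s (evalAt I z)) : Fin N → ℂ) - z) i =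
          E.flow s (evalAt I z) (Ideal.Quotient.mk I (MvPolynomial.X i)) -
            evalAt I z (Ideal.Quotient.mk I (MvPolynomial.X i)) := by
        rw [evalAt_mk, MvPolynomial.eval_X]
        rfl
      rw [h2]
      refine (hC i z hz s (hs.trans (min_le_left _ _))).trans ?_
      apply mul_le_mul _ hs (norm_nonneg _) hK0.le
      have := Finset.single_le_sum (f := C) (fun i _ => hC0 i) (Finset.mem_univ i)
      linarith
    have h2 : K * η ≤ ε / 2 := by
      calc K * η ≤ K * (ε / (2 * K)) := mul_le_mul_of_nonneg_left (min_le_right _ _) hK0.le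
        _ = ε / 2 := by field_simp
    linarith
  refine ⟨toVar I (expPerm E f hf q), isHoloAut_exp I E hf hqd, ?_, ?_, ?_⟩
  · rw [toVar_apply]
    change toPt I (E.flow (q (evalAt I x f)) (evalAt I x)) = _
    rw [hqx]
  · intro p hp
    rw [toVar_apply]
    change toPt I (E.flow (q (evalAt I p f)) (evalAt I p)) = _
    rw [hqF _ (Finset.mem_image_of_mem _ hp), E.flow_zero, toPt_evalAt]
  · intro z hz
    have h1 := hqM _ (hM.2 z hz)
    constructor
    · exact hdist z hz _ h1
    · rw [toVar_symm_apply]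
      change ‖(toPt I (E.flow (-q (evalAt I z f)) (evalAt I z)) : Fin N → ℂ) - z‖ < ε
      exact hdist z hz _ (by rwa [norm_neg])

/-- linked points are connected by an automorphism close to the identity -/
theorem exists_near_of_link {R : ℝ} {x y : variety I} (h : Link R x y) :
    ∀ {r : ℝ}, r < R → ∀ (F : Finset (variety I)),
      (∀ p ∈ F, ‖((p : variety I) : Fin N → ℂ)‖ ≤ r) → ∀ {ε : ℝ}, 0 < ε →
    ∃ θ : Equiv.Perm (variety I), IsHoloAut (variety I) θ ∧ θ x = y ∧ (∀ p ∈ F, θ p = p) ∧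
      Near θ r ε := by
  induction h with
  | refl =>
    intro r _ F _ ε hε
    refine ⟨Equiv.refl _, isHoloAut_refl, rfl, fun _ _ => rfl, fun z _ => ?_⟩
    simp [hε]
  | tail _ hst ih =>
    intro r hr F hF ε hε
    set r' := (r + R) / 2 with hr'
    have hr'1 : r < r' := by rw [hr']; linarith
    have hr'2 : r' < R := by rw [hr']; linarith
    have hδ₁ : 0 < min (ε / 2) (R - r) := lt_min (by linarith) (by linarith)
    have hδ₂ : 0 < min (ε / 2) (r' - r) := lt_min (by linarith) (by linarith)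
    obtain ⟨θ₁, hθ₁, hθ₁x, hθ₁F, hθ₁n⟩ := ih hr'2 F (fun p hp => (hF p hp).trans hr'1.le) hδ₁
    obtain ⟨θ₂, hθ₂, hθ₂x, hθ₂F, hθ₂n⟩ := exists_near_of_step hst F
      (fun p hp => (hF p hp).trans hr.le) hδ₂
    refine ⟨θ₁.trans θ₂, hθ₁.trans hθ₂, ?_, ?_, ?_⟩
    · rw [Equiv.trans_apply, hθ₁x, hθ₂x]
    · intro p hp
      rw [Equiv.trans_apply, hθ₁F p hp, hθ₂F p hp]
    · intro z hz
      constructor
      · have h1 := (hθ₁n z (hz.trans hr'1.le)).1
        have h2 : ‖(θ₁ z : Fin N → ℂ)‖ ≤ R := by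
          have h3 := norm_add_le ((θ₁ z : Fin N → ℂ) - z) (z : Fin N → ℂ)
          rw [sub_add_cancel] at h3
          have h4 := h1.trans_le (min_le_right _ _)
          linarith
        have h3 := (hθ₂n (θ₁ z) h2).1
        have h4 := norm_add_le ((θ₂ (θ₁ z) : Fin N → ℂ) - θ₁ z) ((θ₁ z : Fin N → ℂ) - z)
        rw [sub_add_sub_cancel] at h4
        have h5 := h1.trans_le (min_le_left _ _)
        have h6 := h3.trans_le (min_le_left _ _)
        rw [Equiv.trans_apply]
        linarith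
      · have h1 := (hθ₂n z (hz.trans hr.le)).2
        have h2 : ‖(θ₂.symm z : Fin N → ℂ)‖ ≤ r' := by
          have h3 := norm_add_le ((θ₂.symm z : Fin N → ℂ) - z) (z : Fin N → ℂ)
          rw [sub_add_cancel] at h3
          have h4 := h1.trans_le (min_le_right _ _)
          linarith
        have h3 := (hθ₁n (θ₂.symm z) h2).2
        have h4 := norm_add_le ((θ₁.symm (θ₂.symm z) : Fin N → ℂ) - θ₂.symm z)
          ((θ₂.symm z : Fin N → ℂ) - z)
        rw [sub_add_sub_cancel] at h4
        have h5 := h1.trans_le (min_le_left _ _)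
        have h6 := h3.trans_le (min_le_left _ _)
        rw [Equiv.symm_trans_apply]
        linarith

end Pool.Agent.RRG
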