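import Pool.Agent.RRG.Holo

/-!
# Automorphisms from locally nilpotent derivations
-/

set_option autoImplicit false

open Topology Filter

namespace Pool.Agent.RRG

open Pool.Agent.RR

section points

variable {A : Type*} [CommRing A] [Algebra ℂ A]

/-- the automorphism `exp(h(a) E)` on complex points -/
noncomputable def expPerm (E : LND A) (a : A) (ha : E.D a = 0) (h : ℂ → ℂ) :
    Equiv.Perm (A →ₐ[ℂ] ℂ) where
  toFun χ := E.flow (h (χ a)) χ
  invFun χ := E.flow (-h (χ a)) χ
  left_inv χ := by
    simp only [E.flow_ker ha, E.flow_flow]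
    rw [neg_add_cancel, E.flow_zero]
  right_inv χ := by
    simp only [E.flow_ker ha, E.flow_flow]
    rw [add_neg_cancel, E.flow_zero]

/-- the automorphism `exp(t E)` on complex points -/
noncomputable def flowPerm (E : LND A) (t : ℂ) : Equiv.Perm (A →ₐ[ℂ] ℂ) where
  toFun χ := E.flow t χ
  invFun χ := E.flow (-t) χ
  left_inv χ := by
    simp only [E.flow_flow]
    rw [neg_add_cancel, E.flow_zero]
  right_inv χ := by
    simp only [E.flow_flow]
    rw [add_neg_cancel, E.flow_zero]

lemma lnd_derivative_orb (E : LND A) (χ : A →ₐ[ℂ] ℂ) (b : A) :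
    Polynomial.derivative (E.orb χ b) = E.orb χ (E.D b) := by
  ext j
  rw [Polynomial.coeff_derivative, LND.coeff_orb, LND.coeff_orb]
  have h1 : E.c (E.D b) j = ((j + 1 : ℕ) : ℂ) • E.c b (j + 1) := by
    rw [LND.c, ← Function.iterate_succ_apply (⇑E.D) j b, LND.iter_eq_factorial_smul_c, smul_smul,
      Nat.factorial_succ]
    congr 1
    have : (j.factorial : ℂ) ≠ 0 := by exact_mod_cast j.factorial_ne_zero
    push_cast
    field_simp
  rw [h1, map_smul, smul_eq_mul]
  push_cast
  ring

lemma lnd_flow_eq_sum (E : LND A) (t : ℂ) (χ : A →ₐ[ℂ] ℂ) (b : A) :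
    E.flow t χ b = ∑ j ∈ Finset.range ((E.psi b).natDegree + 1), χ (E.c b j) * t ^ j := by
  rw [LND.flow_apply, LND.orb, AlgHom.comp_apply]
  have h1 : (Polynomial.mapAlgHom χ (E.psi b)).natDegree < (E.psi b).natDegree + 1 := by
    have : (Polynomial.mapAlgHom χ (E.psi b)) = (E.psi b).map (χ : A →+* ℂ) := rfl
    rw [this]
    exact Nat.lt_succ_of_le Polynomial.natDegree_map_le
  rw [Polynomial.eval_eq_sum_range' h1]
  refine Finset.sum_congr rfl fun j _ => ?_
  have : (Polynomial.mapAlgHom χ (E.psi b)) = (E.psi b).map (χ : A →+* ℂ) := rfl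
  rw [this, Polynomial.coeff_map, LND.coeff_psi]
  rfl

end points

variable {N : ℕ} (I : Ideal (MvPolynomial (Fin N) ℂ))

/-- transport a permutation of the complex points to the variety -/
noncomputable def toVar (φ : Equiv.Perm (CoordRing I →ₐ[ℂ] ℂ)) : Equiv.Perm (variety I) :=
  ((ptEquiv I).trans φ).trans (ptEquiv I).symm

lemma toVar_apply (φ : Equiv.Perm (CoordRing I →ₐ[ℂ] ℂ)) (x : variety I) :
    toVar I φ x = toPt I (φ (evalAt I x)) := rfl

lemma evalAt_toVar (φ : Equiv.Perm (CoordRing I →ₐ[ℂ] ℂ)) (x : variety I) :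
    evalAt I (toVar I φ x) = φ (evalAt I x) := by
  rw [toVar_apply, evalAt_toPt]

lemma toVar_symm_apply (φ : Equiv.Perm (CoordRing I →ₐ[ℂ] ℂ)) (x : variety I) :
    (toVar I φ).symm x = toPt I (φ.symm (evalAt I x)) := rfl

lemma isHolo_flow (E : LND (CoordRing I)) {τ : variety I → ℂ} (hτ : IsHolo (variety I) τ) :
    IsHolo (variety I) (fun x => (toPt I (E.flow (τ x) (evalAt I x)) : Fin N → ℂ)) := by
  apply IsHolo.pi
  intro i
  change IsHolo (variety I) fun x => E.flow (τ x) (evalAt I x)
    (Ideal.Quotient.mk I (MvPolynomial.X i))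
  simp only [lnd_flow_eq_sum]
  exact IsHolo.sum _ fun j _ => (isHolo_eval I _).mul (hτ.pow j)

lemma isHoloAut_exp (E : LND (CoordRing I)) {a : CoordRing I} (ha : E.D a = 0) {h : ℂ → ℂ}
    (hh : Differentiable ℂ h) : IsHoloAut (variety I) (toVar I (expPerm E a ha h)) := by
  constructor
  · exact isHolo_flow I E (τ := fun x => h (evalAt I x a)) ((isHolo_eval I a).entire hh)
  · exact isHolo_flow I E (τ := fun x => -h (evalAt I x a))
      ((isHolo_eval I a).entire (h := fun z => -h z) hh.neg)

lemma isHoloAut_flow (E : LND (CoordRing I)) (t : ℂ) :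
    IsHoloAut (variety I) (toVar I (flowPerm E t)) :=
  ⟨isHolo_flow I E (τ := fun _ => t) (IsHolo.const t),
    isHolo_flow I E (τ := fun _ => -t) (IsHolo.const (-t))⟩

/-! ### Flexibility in terms of determinants -/

/-- package a locally nilpotent derivation -/
def mkLND {D : Derivation ℂ (CoordRing I) (CoordRing I)} (hD : IsLND I D) :
    LND (CoordRing I) := ⟨D, hD⟩

theorem flexAlg_of_isFlexible {n : ℕ} (hsm : IsSmoothOfDim I n) (hfl : IsFlexible I) :
    FlexAlg (CoordRing I) n := by
  intro χ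
  set x := toPt I χ with hx
  have hχ : evalAt I x = χ := evalAt_toPt I χ
  set S := {v : Fin N → ℂ | ∃ D, IsLND I D ∧ v = valueAt I D x} with hS
  have hspan : Submodule.span ℂ S = tangentSpace I x := hfl x
  have hrank : Module.finrank ℂ (Submodule.span ℂ S) = n := by rw [hspan]; exact hsm.2 x
  obtain ⟨f, hfS, -, hf⟩ := Submodule.exists_fun_fin_finrank_span_eq ℂ S
  let f' : Fin n → Fin N → ℂ := fun j => f (Fin.cast hrank.symm j)
  have hf' : LinearIndependent ℂ f' := hf.comp _ (Fin.cast_injective _)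
  choose D hD hDv using fun j : Fin n => hfS (Fin.cast hrank.symm j)
  -- a left inverse
  let Φ : (Fin n → ℂ) →ₗ[ℂ] (Fin N → ℂ) := Fintype.linearCombination ℂ f'
  have hΦ : LinearMap.ker Φ = ⊥ := by
    exact LinearMap.ker_eq_bot.2 (linearIndependent_iff_injective_fintypeLinearCombination.1 hf')
  obtain ⟨g, hg⟩ := Φ.exists_leftInverse_of_injective hΦ
  refine ⟨fun j => mkLND I (hD j),
    fun i => ∑ k, (g (Pi.single k 1) i) • Ideal.Quotient.mk I (MvPolynomial.X k), ?_⟩
  have key : (Matrix.of fun i j : Fin n => χ ((mkLND I (hD j)).D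
      (∑ k, (g (Pi.single k 1) i) • Ideal.Quotient.mk I (MvPolynomial.X k)))) = 1 := by
    ext i j
    rw [Matrix.of_apply]
    have h1 : χ ((mkLND I (hD j)).D
        (∑ k, (g (Pi.single k 1) i) • Ideal.Quotient.mk I (MvPolynomial.X k))) =
        ∑ k, g (Pi.single k 1) i * valueAt I (D j) x k := by
      rw [map_sum, map_sum]
      refine Finset.sum_congr rfl fun k _ => ?_
      rw [Derivation.map_smul, map_smul, smul_eq_mul, valueAt, hχ]
      rfl
    rw [h1]
    have h2 : ∑ k, g (Pi.single k 1) i * valueAt I (D j) x k = g (valueAt I (D j) x) i := by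
      conv_rhs => rw [← Finset.univ_sum_single (valueAt I (D j) x)]
      rw [map_sum, Finset.sum_apply]
      refine Finset.sum_congr rfl fun k _ => ?_
      have : (Pi.single k (valueAt I (D j) x k) : Fin N → ℂ) =
          (valueAt I (D j) x k) • Pi.single k 1 := by
        rw [← Pi.single_smul, smul_eq_mul, mul_one]
      rw [this, map_smul, Pi.smul_apply, smul_eq_mul, mul_comm]
    have h3 : valueAt I (D j) x = Φ (Pi.single j 1) := by
      rw [← hDv j]
      simp [Φ, f', Fintype.linearCombination_apply_single]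
    rw [h2, h3]
    have h4 : g (Φ (Pi.single j 1)) = Pi.single j 1 := by
      have := congrFun (congrArg DFunLike.coe hg) (Pi.single j (1 : ℂ))
      simpa using this
    rw [h4, Matrix.one_apply, Pi.single_apply]
  rw [key, Matrix.det_one]
  exact one_ne_zero

/-! ### the fourth axiom -/

lemma isCompleteField_lnd (E : LND (CoordRing I)) :
    IsCompleteField (variety I) (fun x => valueAt I E.D x) := by
  refine ⟨IsHolo.pi fun i => isHolo_eval I _, fun x => ?_⟩
  refine ⟨fun t => toPt I (E.flow t (evalAt I x)), ?_, fun t => (toPt I _).2, ?_⟩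
  · change (toPt I (E.flow 0 (evalAt I x)) : Fin N → ℂ) = x
    rw [E.flow_zero, toPt_evalAt]
  · intro t ht
    rw [hasDerivAt_pi]
    intro i
    change HasDerivAt (fun t => E.flow t (evalAt I x) (Ideal.Quotient.mk I (MvPolynomial.X i)))
      (evalAt I (toPt I (E.flow t (evalAt I x)))
        (E.D (Ideal.Quotient.mk I (MvPolynomial.X i)))) t
    rw [evalAt_toPt]
    simp only [LND.flow_apply]
    rw [← lnd_derivative_orb]
    exact Polynomial.hasDerivAt _ _

lemma killedBy_lnd (E : LND (CoordRing I)) {a : CoordRing I} (ha : E.D a = 0) :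
    KilledBy (variety I) (fun x => valueAt I E.D x) (fun x => evalAt I x a) := by
  intro x F hF' hFe
  have hF : DifferentiableAt ℂ F (x : Fin N → ℂ) := hF'.self_of_nhds
  obtain ⟨-, h⟩ := isCompleteField_lnd I E
  set γ : ℂ → Fin N → ℂ := fun t => toPt I (E.flow t (evalAt I x)) with hγ
  have hγ0 : γ 0 = x := by
    change (toPt I (E.flow 0 (evalAt I x)) : Fin N → ℂ) = x
    rw [E.flow_zero, toPt_evalAt]
  have hγd : HasDerivAt γ (valueAt I E.D x) 0 := by
    rw [hasDerivAt_pi]
    intro i
    change HasDerivAt (fun t => E.flow t (evalAt I x) (Ideal.Quotient.mk I (MvPolynomial.X i)))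
      (evalAt I x (E.D (Ideal.Quotient.mk I (MvPolynomial.X i)))) 0
    simp only [LND.flow_apply]
    have h1 : evalAt I x (E.D (Ideal.Quotient.mk I (MvPolynomial.X i))) =
        Polynomial.eval 0 (Polynomial.derivative
          (E.orb (evalAt I x) (Ideal.Quotient.mk I (MvPolynomial.X i)))) := by
      rw [lnd_derivative_orb, ← Polynomial.coeff_zero_eq_eval_zero, LND.coeff_orb, LND.c_zero]
    rw [h1]
    exact Polynomial.hasDerivAt _ _
  have h1 : HasFDerivAt F (fderiv ℂ F (x : Fin N → ℂ)) (γ 0) := by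
    rw [hγ0]; exact hF.hasFDerivAt
  have h2 := h1.comp_hasDerivAt (0 : ℂ) hγd
  have h3 : (F ∘ γ) =ᶠ[𝓝 0] fun _ => evalAt I x a := by
    have hc : Tendsto γ (𝓝 0) (𝓝 (x : Fin N → ℂ)) := by
      have := hγd.continuousAt.tendsto
      rwa [hγ0] at this
    filter_upwards [hc.eventually hFe] with t ht
    have h4 : γ t ∈ variety I := (toPt I _).2
    rw [Function.comp_apply, ← ht h4]
    have h5 : (⟨γ t, h4⟩ : variety I) = toPt I (E.flow t (evalAt I x)) := rfl
    rw [h5, evalAt_toPt, E.flow_ker ha]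
  have h4 : HasDerivAt (F ∘ γ) 0 0 := (hasDerivAt_const (0 : ℂ) (evalAt I x a)).congr_of_eventuallyEq h3
  exact h2.unique h4

end Pool.Agent.RRG
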