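import Pool.Agent.RRG.Auts
import Pool.Agent.RR.Span

/-!
# Charts given by iterated flows
-/

set_option autoImplicit false

open Topology Filter

namespace Pool.Agent.RRG

open Pool.Agent.RR

section chain

variable {A : Type*} [CommRing A] [Algebra ℂ A]

/-- iterated flows; `E (m-1)` is applied first -/
noncomputable def chain (E : ℕ → LND A) (t : ℕ → ℂ) : ℕ → (A →ₐ[ℂ] ℂ) → (A →ₐ[ℂ] ℂ)
  | 0, χ => χ
  | (m + 1), χ => chain E t m ((E m).flow (t m) χ)

lemma eval_map_stepHom (E : LND A) (m : ℕ) (t : ℕ → ℂ) (χ : A →ₐ[ℂ] ℂ) (P : MvPolynomial ℕ A) :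
    MvPolynomial.eval t (MvPolynomial.map (χ : A →+* ℂ) (stepHom E m P)) =
      MvPolynomial.eval t (MvPolynomial.map (E.flow (t m) χ : A →+* ℂ) P) := by
  have : ((MvPolynomial.eval t).comp (MvPolynomial.map (χ : A →+* ℂ))).comp (stepHom E m) =
      (MvPolynomial.eval t).comp (MvPolynomial.map (E.flow (t m) χ : A →+* ℂ)) := by
    apply MvPolynomial.ringHom_ext
    · intro a
      simp only [RingHom.comp_apply, stepHom_C, MvPolynomial.map_C, MvPolynomial.eval_C]
      rw [Polynomial.hom_eval₂, Polynomial.hom_eval₂]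
      have h1 : ((MvPolynomial.eval t).comp ((MvPolynomial.map (χ : A →+* ℂ)).comp
          (MvPolynomial.C : A →+* MvPolynomial ℕ A))) = (χ : A →+* ℂ) := by
        ext b
        simp
      rw [h1]
      simp only [MvPolynomial.map_X, MvPolynomial.eval_X]
      change _ = E.flow (t m) χ a
      rw [LND.flow_apply, Polynomial.eval₂_eq_eval_map]
      rfl
    · intro i
      simp [stepHom_X]
  exact congrFun (congrArg DFunLike.coe this) P

lemma chain_apply (E : ℕ → LND A) (t : ℕ → ℂ) (m : ℕ) (χ : A →ₐ[ℂ] ℂ) (b : A) :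
    chain E t m χ b = MvPolynomial.eval t (Xi E m χ b) := by
  induction m generalizing χ with
  | zero => simp [chain, Xi_apply, G]
  | succ m ih =>
    rw [chain, ih, Xi_apply, Xi_apply]
    simp only [G, RingHom.comp_apply]
    rw [eval_map_stepHom]

lemma chain_zero (E : ℕ → LND A) (t : ℕ → ℂ) (m : ℕ) (ht : ∀ i < m, t i = 0) (χ : A →ₐ[ℂ] ℂ) :
    chain E t m χ = χ := by
  induction m generalizing χ with
  | zero => rfl
  | succ m ih =>
    rw [chain, ht m (by omega), LND.flow_zero]
    exact ih (fun i hi => ht i (by omega)) χ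

end chain

section ext

variable {n : ℕ}

/-- extension by zero -/
noncomputable def ext (t : Fin n → ℂ) : ℕ → ℂ := fun k => if h : k < n then t ⟨k, h⟩ else 0

lemma ext_zero : ext (0 : Fin n → ℂ) = 0 := by
  funext k
  simp [ext]

lemma ext_fin (t : Fin n → ℂ) (j : Fin n) : ext t (j : ℕ) = t j := by
  simp [ext]

lemma hasFDerivAt_ext (k : ℕ) (t₀ : Fin n → ℂ) :
    HasFDerivAt (fun t : Fin n → ℂ => ext t k)
      (∑ j : Fin n, (if (j : ℕ) = k then (1 : ℂ) else 0) •
        (ContinuousLinearMap.proj j : (Fin n → ℂ) →L[ℂ] ℂ)) t₀ := by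
  by_cases h : k < n
  · have h1 : (fun t : Fin n → ℂ => ext t k) =
        (ContinuousLinearMap.proj (⟨k, h⟩ : Fin n) : (Fin n → ℂ) →L[ℂ] ℂ) := by
      funext t
      simp [ext, h]
    rw [h1]
    refine (ContinuousLinearMap.hasFDerivAt _).congr_fderiv ?_
    apply ContinuousLinearMap.ext
    intro v
    simp only [FunLike.coe_sum, Finset.sum_apply, FunLike.coe_smul, Pi.smul_apply,
      ContinuousLinearMap.proj_apply, smul_eq_mul, ite_mul, one_mul, zero_mul]
    rw [Finset.sum_eq_single (⟨k, h⟩ : Fin n)]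
    · simp
    · intro j _ hj
      rw [if_neg]
      intro h3
      exact hj (Fin.ext h3)
    · intro h3
      exact absurd (Finset.mem_univ _) h3
  · have h1 : (fun t : Fin n → ℂ => ext t k) = fun _ => 0 := by
      funext t
      simp [ext, h]
    rw [h1]
    refine (hasFDerivAt_const _ _).congr_fderiv ?_
    apply ContinuousLinearMap.ext
    intro v
    simp only [FunLike.coe_sum, Finset.sum_apply, FunLike.coe_smul, Pi.smul_apply,
      ContinuousLinearMap.proj_apply, smul_eq_mul, ite_mul, one_mul, zero_mul]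
    symm
    apply Finset.sum_eq_zero
    intro j _
    rw [if_neg]
    intro h3
    exact h (h3 ▸ j.2)

lemma hasFDerivAt_eval_ext (P : MvPolynomial ℕ ℂ) (t₀ : Fin n → ℂ) :
    HasFDerivAt (fun t : Fin n → ℂ => MvPolynomial.eval (ext t) P)
      (∑ j : Fin n, (MvPolynomial.eval (ext t₀) (MvPolynomial.pderiv (j : ℕ) P)) •
        (ContinuousLinearMap.proj j : (Fin n → ℂ) →L[ℂ] ℂ)) t₀ := by
  induction P using MvPolynomial.induction_on with
  | C a =>
    simp only [MvPolynomial.eval_C]
    refine (hasFDerivAt_const _ _).congr_fderiv ?_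
    apply ContinuousLinearMap.ext
    intro v
    simp
  | add p q hp hq =>
    simp only [map_add]
    refine (hp.add hq).congr_fderiv ?_
    apply ContinuousLinearMap.ext
    intro v
    simp only [FunLike.coe_add, Pi.add_apply, FunLike.coe_sum, Finset.sum_apply, FunLike.coe_smul,
      Pi.smul_apply, ContinuousLinearMap.proj_apply, smul_eq_mul, add_mul, Finset.sum_add_distrib]
  | mul_X p k hp =>
    have h1 := hp.mul (hasFDerivAt_ext k t₀)
    have h2 : (fun t : Fin n → ℂ => MvPolynomial.eval (ext t) (p * MvPolynomial.X k)) =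
        fun t => MvPolynomial.eval (ext t) p * ext t k := by
      funext t
      simp
    rw [h2]
    refine h1.congr_fderiv ?_
    apply ContinuousLinearMap.ext
    intro v
    simp only [FunLike.coe_add, Pi.add_apply, FunLike.coe_sum, Finset.sum_apply, FunLike.coe_smul,
      Pi.smul_apply, ContinuousLinearMap.proj_apply, smul_eq_mul]
    rw [Finset.mul_sum, Finset.mul_sum, ← Finset.sum_add_distrib]
    refine Finset.sum_congr rfl fun j _ => ?_
    rw [Derivation.leibniz, MvPolynomial.pderiv_X]
    simp only [smul_eq_mul, map_add, map_mul, MvPolynomial.eval_X]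
    by_cases hjk : (j : ℕ) = k
    · subst hjk
      simp only [if_true, Pi.single_eq_same, map_one]
      ring
    · rw [if_neg hjk, Pi.single_eq_of_ne (Ne.symm hjk)]
      simp only [map_zero]
      ring

lemma contDiff_ext (k : ℕ) : ContDiff ℂ 1 (fun t : Fin n → ℂ => ext t k) := by
  by_cases h : k < n
  · have h1 : (fun t : Fin n → ℂ => ext t k) =
        (ContinuousLinearMap.proj (⟨k, h⟩ : Fin n) : (Fin n → ℂ) →L[ℂ] ℂ) := by
      funext t
      simp [ext, h]
    rw [h1]
    exact ContinuousLinearMap.contDiff _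
  · have h1 : (fun t : Fin n → ℂ => ext t k) = fun _ => 0 := by
      funext t
      simp [ext, h]
    rw [h1]
    exact contDiff_const

lemma contDiff_eval_ext (P : MvPolynomial ℕ ℂ) :
    ContDiff ℂ 1 (fun t : Fin n → ℂ => MvPolynomial.eval (ext t) P) := by
  induction P using MvPolynomial.induction_on with
  | C a => simpa using contDiff_const
  | add p q hp hq => simpa only [map_add] using hp.add hq
  | mul_X p k hp => simpa using hp.mul (contDiff_ext k)

end ext

variable {N : ℕ} (I : Ideal (MvPolynomial (Fin N) ℂ))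

/-- the chart centred at `x` given by iterated flows -/
noncomputable def chart {n : ℕ} (E : ℕ → LND (CoordRing I)) (x : variety I) (t : Fin n → ℂ) :
    variety I := toPt I (chain E (ext t) n (evalAt I x))

lemma chart_apply {n : ℕ} (E : ℕ → LND (CoordRing I)) (x : variety I) (t : Fin n → ℂ)
    (i : Fin N) : (chart I E x t : Fin N → ℂ) i =
      MvPolynomial.eval (ext t) (Xi E n (evalAt I x) (Ideal.Quotient.mk I (MvPolynomial.X i))) := by
  rw [← chain_apply]
  rfl

lemma chart_zero {n : ℕ} (E : ℕ → LND (CoordRing I)) (x : variety I) :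
    chart I E x (0 : Fin n → ℂ) = x := by
  rw [chart, ext_zero, chain_zero E 0 n (fun _ _ => rfl), toPt_evalAt]

lemma contDiff_chart {n : ℕ} (E : ℕ → LND (CoordRing I)) (x : variety I) :
    ContDiff ℂ 1 (fun t : Fin n → ℂ => (chart I E x t : Fin N → ℂ)) := by
  rw [contDiff_pi]
  intro i
  simp only [chart_apply]
  exact contDiff_eval_ext _

/-- the derivative of the chart -/
lemma hasFDerivAt_chart {n : ℕ} (E : ℕ → LND (CoordRing I)) (x : variety I) :
    HasFDerivAt (fun t : Fin n → ℂ => (chart I E x t : Fin N → ℂ))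
      (∑ j : Fin n, (ContinuousLinearMap.proj j : (Fin n → ℂ) →L[ℂ] ℂ).smulRight
        (valueAt I (E j).D x)) 0 := by
  rw [hasFDerivAt_pi']
  intro i
  simp only [chart_apply]
  refine (hasFDerivAt_eval_ext _ _).congr_fderiv ?_
  ext t
  simp only [FunLike.coe_sum, Finset.sum_apply, FunLike.coe_smul,
    Pi.smul_apply, ContinuousLinearMap.proj_apply, smul_eq_mul, ContinuousLinearMap.coe_comp,
    Function.comp_apply, ContinuousLinearMap.smulRight_apply]
  refine Finset.sum_congr rfl fun j _ => ?_
  rw [mul_comm]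
  congr 1
  rw [ext_zero, Xi_apply, MvPolynomial.pderiv_map, MvPolynomial.eval_map]
  have : MvPolynomial.eval₂ (evalAt I x : CoordRing I →+* ℂ) 0
      (MvPolynomial.pderiv (j : ℕ) (G E n (Ideal.Quotient.mk I (MvPolynomial.X i)))) =
      evalAt I x (MvPolynomial.constantCoeff (MvPolynomial.pderiv (j : ℕ)
        (G E n (Ideal.Quotient.mk I (MvPolynomial.X i))))) := by
    rw [MvPolynomial.eval₂_zero_apply]
    rfl
  rw [this, constantCoeff_pderiv_G E j.2]
  rfl

/-- differential of a polynomial map -/
noncomputable def dpoly (p : MvPolynomial (Fin N) ℂ) (x : Fin N → ℂ) : (Fin N → ℂ) →L[ℂ] ℂ :=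
  ∑ j : Fin N, (MvPolynomial.eval x (MvPolynomial.pderiv j p)) •
    (ContinuousLinearMap.proj j : (Fin N → ℂ) →L[ℂ] ℂ)

lemma dpoly_apply (p : MvPolynomial (Fin N) ℂ) (x v : Fin N → ℂ) :
    dpoly p x v = ∑ j, v j * MvPolynomial.eval x (MvPolynomial.pderiv j p) := by
  simp only [dpoly, FunLike.coe_sum, Finset.sum_apply, FunLike.coe_smul,
    Pi.smul_apply, ContinuousLinearMap.proj_apply, smul_eq_mul]
  exact Finset.sum_congr rfl fun j _ => mul_comm _ _

lemma hasFDerivAt_poly (p : MvPolynomial (Fin N) ℂ) (x : Fin N → ℂ) :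
    HasFDerivAt (fun y : Fin N → ℂ => MvPolynomial.eval y p) (dpoly p x) x := by
  induction p using MvPolynomial.induction_on with
  | C a =>
    simp only [MvPolynomial.eval_C]
    refine (hasFDerivAt_const _ _).congr_fderiv ?_
    apply ContinuousLinearMap.ext
    intro v
    rw [dpoly_apply]
    simp
  | add p q hp hq =>
    simp only [map_add]
    refine (hp.add hq).congr_fderiv ?_
    apply ContinuousLinearMap.ext
    intro v
    rw [FunLike.coe_add, Pi.add_apply, dpoly_apply, dpoly_apply, dpoly_apply]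
    simp only [map_add, mul_add, Finset.sum_add_distrib]
  | mul_X p k hp =>
    have h1 := hp.mul
      ((ContinuousLinearMap.proj k : (Fin N → ℂ) →L[ℂ] ℂ).hasFDerivAt (x := x))
    have h2 : (fun y : Fin N → ℂ => MvPolynomial.eval y (p * MvPolynomial.X k)) =
        fun y => MvPolynomial.eval y p * (ContinuousLinearMap.proj k : (Fin N → ℂ) →L[ℂ] ℂ) y := by
      funext y
      simp
    rw [h2]
    refine h1.congr_fderiv ?_
    apply ContinuousLinearMap.ext
    intro v
    simp only [FunLike.coe_add, Pi.add_apply, FunLike.coe_smul, Pi.smul_apply, dpoly_apply,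
      ContinuousLinearMap.proj_apply, smul_eq_mul, Derivation.leibniz, MvPolynomial.pderiv_X,
      map_add, map_mul, MvPolynomial.eval_X, mul_add, Finset.sum_add_distrib]
    congr 1
    · rw [Finset.sum_eq_single k]
      · simp only [Pi.single_eq_same, map_one]
        ring
      · intro j _ hj
        rw [Pi.single_eq_of_ne (Ne.symm hj)]
        simp
      · intro h
        exact absurd (Finset.mem_univ _) h
    · rw [Finset.mul_sum]
      exact Finset.sum_congr rfl fun j _ => by ring

end Pool.Agent.RRG
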