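import Pool.Agent.RRG.Chart

/-!
# Local inverses of the charts
-/

set_option autoImplicit false

open Topology Filter

namespace Pool.Agent.RRG

open Pool.Agent.RR

variable {N : ℕ} (I : Ideal (MvPolynomial (Fin N) ℂ))

lemma hasStrictFDerivAt_poly (p : MvPolynomial (Fin N) ℂ) (x : Fin N → ℂ) :
    HasStrictFDerivAt (fun y : Fin N → ℂ => MvPolynomial.eval y p) (dpoly p x) x := by
  have h1 : AnalyticAt ℂ (fun y : Fin N → ℂ => MvPolynomial.eval y p) x :=
    AnalyticOnNhd.eval_mvPolynomial p x (Set.mem_univ x)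
  have h2 := h1.hasStrictFDerivAt
  rwa [(hasFDerivAt_poly p x).fderiv] at h2

lemma mem_tangentSpace_iff (x : variety I) (v : Fin N → ℂ) :
    v ∈ tangentSpace I x ↔ ∀ p ∈ I, dpoly p (x : Fin N → ℂ) v = 0 := by
  constructor
  · intro h p hp
    rw [dpoly_apply]
    exact h p hp
  · intro h p hp
    rw [← dpoly_apply]
    exact h p hp

lemma mem_tangentSpace_of_gen (x : variety I) (v : Fin N → ℂ)
    (s : Set (MvPolynomial (Fin N) ℂ)) (hs : Ideal.span s = I)
    (h : ∀ p ∈ s, dpoly p (x : Fin N → ℂ) v = 0) : v ∈ tangentSpace I x := by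
  rw [mem_tangentSpace_iff]
  intro p hp
  have hp' : p ∈ Ideal.span s := by rw [hs]; exact hp
  refine Submodule.span_induction (p := fun p _ => dpoly p (x : Fin N → ℂ) v = 0)
    ?_ ?_ ?_ ?_ hp'
  · exact h
  · rw [dpoly_apply]; simp
  · intro a b _ _ ha hb
    rw [dpoly_apply] at *
    simp only [map_add, mul_add, Finset.sum_add_distrib, ha, hb, add_zero]
  · intro c a ha' ha
    have h0 : MvPolynomial.eval (x : Fin N → ℂ) a = 0 := x.2 a (by rw [← hs]; exact ha')
    rw [dpoly_apply] at *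
    simp only [smul_eq_mul, Derivation.leibniz, map_add, map_mul, h0, zero_mul, add_zero]
    have : ∀ i, v i * (MvPolynomial.eval (x : Fin N → ℂ) c *
        MvPolynomial.eval (x : Fin N → ℂ) (MvPolynomial.pderiv i a)) =
        MvPolynomial.eval (x : Fin N → ℂ) c * (v i *
        MvPolynomial.eval (x : Fin N → ℂ) (MvPolynomial.pderiv i a)) := fun i => by ring
    simp only [this]
    rw [← Finset.mul_sum, ha, mul_zero]

/-- two points of the variety near `x` with the same image under a linear map which is injective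
on the tangent space are equal -/
lemma eventually_eq_of_map_eq {n : ℕ} (x : variety I) (g : (Fin N → ℂ) →L[ℂ] (Fin n → ℂ))
    (hg : ∀ v ∈ tangentSpace I x, g v = 0 → v = 0) :
    ∀ᶠ p in 𝓝 ((x : Fin N → ℂ), (x : Fin N → ℂ)),
      p.1 ∈ variety I → p.2 ∈ variety I → g p.1 = g p.2 → p.1 = p.2 := by
  obtain ⟨s, hs⟩ : I.FG := (isNoetherianRing_iff_ideal_fg _).1 inferInstance I
  let B : (Fin N → ℂ) → (Fin n → ℂ) × (s → ℂ) := fun y => (g y, fun q => MvPolynomial.eval y q.1)
  let B' : (Fin N → ℂ) →L[ℂ] (Fin n → ℂ) × (s → ℂ) :=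
    g.prod (ContinuousLinearMap.pi fun q : s => dpoly q.1 (x : Fin N → ℂ))
  have hB : HasStrictFDerivAt B B' (x : Fin N → ℂ) := by
    refine (g.hasStrictFDerivAt).prodMk ?_
    rw [hasStrictFDerivAt_pi]
    intro q
    exact hasStrictFDerivAt_poly _ _
  have hker : LinearMap.ker (B' : (Fin N → ℂ) →ₗ[ℂ] (Fin n → ℂ) × (s → ℂ)) = ⊥ := by
    rw [LinearMap.ker_eq_bot']
    intro v hv
    have h1 : g v = 0 := congrArg Prod.fst hv
    have h2 : ∀ q : s, dpoly q.1 (x : Fin N → ℂ) v = 0 := fun q =>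
      congrFun (congrArg Prod.snd hv) q
    apply hg v _ h1
    refine mem_tangentSpace_of_gen I x v (s : Set _) hs fun p hp => ?_
    exact h2 ⟨p, hp⟩
  obtain ⟨K, hK0, hK⟩ := LinearMap.exists_antilipschitzWith
    (B' : (Fin N → ℂ) →ₗ[ℂ] (Fin n → ℂ) × (s → ℂ)) hker
  have hlo := hB.isLittleO
  have hK0' : (0 : ℝ) < K := by exact_mod_cast hK0
  have h1 := hlo.def (show (0 : ℝ) < 1 / (2 * K) by positivity)
  filter_upwards [h1] with p hp hp1 hp2 hgp
  have hBp : B p.1 = B p.2 := by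
    apply Prod.ext
    · exact hgp
    · funext q
      have hq : (q : MvPolynomial (Fin N) ℂ) ∈ I := by
        rw [← hs]
        exact Ideal.subset_span q.2
      change MvPolynomial.eval p.1 q.1 = MvPolynomial.eval p.2 q.1
      rw [hp1 _ hq, hp2 _ hq]
  rw [hBp, sub_self, zero_sub, norm_neg] at hp
  have h3 : ‖p.1 - p.2‖ ≤ K * ‖B' (p.1 - p.2)‖ := by
    have := hK.le_mul_dist p.1 p.2
    rw [dist_eq_norm, dist_eq_norm, ← map_sub] at this
    exact this
  have h4 : (K : ℝ) * ‖B' (p.1 - p.2)‖ ≤ 1 / 2 * ‖p.1 - p.2‖ := by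
    calc (K : ℝ) * ‖B' (p.1 - p.2)‖ ≤ K * (1 / (2 * K) * ‖p.1 - p.2‖) :=
          mul_le_mul_of_nonneg_left hp hK0'.le
      _ = 1 / 2 * ‖p.1 - p.2‖ := by field_simp
  have h5 : ‖p.1 - p.2‖ ≤ 0 := by linarith
  exact sub_eq_zero.1 (norm_le_zero_iff.1 h5)

/-- **Local inverse of the chart**, defined on a neighbourhood in the ambient space. -/
theorem exists_chart_inverse {n : ℕ} (hsm : IsSmoothOfDim I n) (hfl : IsFlexible I)
    (E : ℕ → LND (CoordRing I)) (x : variety I)
    (hli : LinearIndependent ℂ (fun j : Fin n => valueAt I (E j).D x)) :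
    ∃ τ : (Fin N → ℂ) → (Fin n → ℂ),
      (∀ᶠ y in 𝓝 (x : Fin N → ℂ), DifferentiableAt ℂ τ y) ∧ τ x = 0 ∧
      ∀ᶠ y in 𝓝 (x : Fin N → ℂ), ∀ hy : y ∈ variety I, chart I E x (τ y) = ⟨y, hy⟩ := by
  let Φ : (Fin n → ℂ) →ₗ[ℂ] (Fin N → ℂ) :=
    Fintype.linearCombination ℂ (fun j : Fin n => valueAt I (E j).D x)
  have hΦ : LinearMap.ker Φ = ⊥ :=
    LinearMap.ker_eq_bot.2 (linearIndependent_iff_injective_fintypeLinearCombination.1 hli)
  obtain ⟨g₀, hg₀⟩ := Φ.exists_leftInverse_of_injective hΦ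
  let g : (Fin N → ℂ) →L[ℂ] (Fin n → ℂ) := g₀.toContinuousLinearMap
  have hgΦ : ∀ c, g (Φ c) = c := fun c => congrFun (congrArg DFunLike.coe hg₀) c
  -- the tangent space is the range of `Φ`
  have htan : tangentSpace I x = LinearMap.range Φ := by
    have h1 : LinearMap.range Φ =
        Submodule.span ℂ (Set.range fun j : Fin n => valueAt I (E j).D x) :=
      Fintype.range_linearCombination ℂ _
    have h2 : Submodule.span ℂ (Set.range fun j : Fin n => valueAt I (E j).D x) ≤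
        tangentSpace I x := by
      rw [← hfl x]
      apply Submodule.span_mono
      rintro _ ⟨j, rfl⟩
      exact ⟨(E j).D, (E j).nil, rfl⟩
    rw [h1]
    symm
    apply Submodule.eq_of_le_of_finrank_eq h2
    rw [hsm.2 x, finrank_span_eq_card hli, Fintype.card_fin]
  have hginj : ∀ v ∈ tangentSpace I x, g v = 0 → v = 0 := by
    intro v hv hgv
    rw [htan] at hv
    obtain ⟨c, rfl⟩ := hv
    rw [hgΦ] at hgv
    rw [hgv, map_zero]
  -- the map `β`
  let β : (Fin n → ℂ) → (Fin n → ℂ) := fun t => g (chart I E x t)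
  have hβc : ContDiffAt ℂ 1 β 0 :=
    (g.contDiff.comp (contDiff_chart I E x)).contDiffAt
  have hβ' : HasFDerivAt β ((ContinuousLinearEquiv.refl ℂ (Fin n → ℂ) :
      (Fin n → ℂ) ≃L[ℂ] (Fin n → ℂ)) : (Fin n → ℂ) →L[ℂ] (Fin n → ℂ)) 0 := by
    have h1 := (g.hasFDerivAt (x := (chart I E x (0 : Fin n → ℂ) : Fin N → ℂ))).comp
      (0 : Fin n → ℂ) (hasFDerivAt_chart I E x)
    refine h1.congr_fderiv ?_
    apply ContinuousLinearMap.ext
    intro c
    have h2 : (∑ j : Fin n, (ContinuousLinearMap.proj j : (Fin n → ℂ) →L[ℂ] ℂ).smulRight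
        (valueAt I (E j).D x)) c = Φ c := by
      simp [Φ, Fintype.linearCombination_apply]
    rw [ContinuousLinearMap.comp_apply, h2, hgΦ]
    rfl
  have hβ0 : β 0 = g x := by
    change g (chart I E x (0 : Fin n → ℂ)) = g x
    rw [chart_zero]
  let σ := hβc.localInverse hβ' one_ne_zero
  have hσc : ContDiffAt ℂ 1 σ (g x) := by
    rw [← hβ0]
    exact hβc.to_localInverse hβ' one_ne_zero
  have hσ0 : σ (g x) = 0 := by
    rw [← hβ0]
    exact hβc.localInverse_apply_image hβ' one_ne_zero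
  have hσr : ∀ᶠ w in 𝓝 (g x), β (σ w) = w := by
    rw [← hβ0]
    exact (hβc.hasStrictFDerivAt' hβ' one_ne_zero).eventually_right_inverse
  have hgt : Tendsto g (𝓝 (x : Fin N → ℂ)) (𝓝 (g x)) := g.continuous.continuousAt
  refine ⟨fun y => σ (g y), ?_, hσ0, ?_⟩
  · have h1 : ∀ᶠ w in 𝓝 (g x), DifferentiableAt ℂ σ w := by
      have h2 := hσc.eventually (by simp)
      filter_upwards [h2] with w hw
      exact hw.differentiableAt one_ne_zero
    filter_upwards [hgt.eventually h1] with y hy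
    exact hy.comp y g.differentiableAt
  · have h1 := eventually_eq_of_map_eq I x g hginj
    have hσt : Tendsto (fun y : Fin N → ℂ => (chart I E x (σ (g y)) : Fin N → ℂ))
        (𝓝 (x : Fin N → ℂ)) (𝓝 (x : Fin N → ℂ)) := by
      have h2 : ContinuousAt (fun y : Fin N → ℂ => (chart I E x (σ (g y)) : Fin N → ℂ))
          (x : Fin N → ℂ) := by
        have h3 : ContinuousAt (fun y : Fin N → ℂ => σ (g y)) (x : Fin N → ℂ) :=
          ContinuousAt.comp (f := g) (g := σ) hσc.continuousAt g.continuous.continuousAt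
        exact ContinuousAt.comp (f := fun y : Fin N → ℂ => σ (g y))
          (g := fun t : Fin n → ℂ => (chart I E x t : Fin N → ℂ))
          (contDiff_chart I E x).continuous.continuousAt h3
      have h4 := h2.tendsto
      simp only [hσ0, chart_zero] at h4
      exact h4
    have h2 : Tendsto (fun y : Fin N → ℂ => ((chart I E x (σ (g y)) : Fin N → ℂ), y))
        (𝓝 (x : Fin N → ℂ)) (𝓝 ((x : Fin N → ℂ), (x : Fin N → ℂ))) := by
      rw [nhds_prod_eq]
      exact hσt.prodMk tendsto_id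
    filter_upwards [h2.eventually h1, hgt.eventually hσr] with y hy1 hy2 hy
    apply Subtype.ext
    exact hy1 (chart I E x (σ (g y))).2 hy hy2

end Pool.Agent.RRG
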