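import Pool.Agent.RRG.Main
import Pool.Agent.RR.Sl2

/-!
# Flexible varieties which are RR-spaces
-/

set_option autoImplicit false

namespace Pool.Agent.RRG

open Pool.Agent.RR

variable {N : ℕ}

/-- A nonzero pair `E`, `F` of locally nilpotent derivations of the coordinate ring which
generates a copy of the Lie algebra `sl₂`; this is the infinitesimal form of a nontrivial algebraic
action of the group `SL₂`. -/
def HasSl2Pair (I : Ideal (MvPolynomial (Fin N) ℂ)) : Prop :=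
  ∃ E F : Derivation ℂ (CoordRing I) (CoordRing I), IsLND I E ∧ IsLND I F ∧ E ≠ 0 ∧
    ⁅⁅E, F⁆, E⁆ = (2 : ℂ) • E ∧ ⁅⁅E, F⁆, F⁆ = -((2 : ℂ) • F)

lemma HD_eq_top_of_hasSl2Pair {I : Ideal (MvPolynomial (Fin N) ℂ)} (hI : I.IsPrime)
    (h : HasSl2Pair I) : HD (CoordRing I) = ⊤ := by
  have hdom : IsDomain (CoordRing I) := (Ideal.Quotient.isDomain_iff_prime I).2 hI
  obtain ⟨E, F, hE, hF, hE0, h1, h2⟩ := h
  exact HD_eq_top_of_sl2 (mkLND I hE) (mkLND I hF) hE0 h1 h2

lemma HD_eq_top_of_dim_two {I : Ideal (MvPolynomial (Fin N) ℂ)} (hI : I.IsPrime)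
    (hsm : IsSmoothOfDim I 2) (hfl : IsFlexible I) : HD (CoordRing I) = ⊤ := by
  have hdom : IsDomain (CoordRing I) := (Ideal.Quotient.isDomain_iff_prime I).2 hI
  have hflex := flexAlg_of_isFlexible I hsm hfl
  obtain ⟨T⟩ := exists_twoLND hsm.1 hflex
  exact HD_eq_top_of_two T hflex

/-- **Theorem**: smooth flexible affine varieties satisfying one of three conditions are
RR-spaces. -/
theorem isRRSpace_final (I : Ideal (MvPolynomial (Fin N) ℂ)) (hI : I.IsPrime) (n : ℕ)
    (hn : 2 ≤ n) (hsm : IsSmoothOfDim I n) (hfl : IsFlexible I)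
    (h : n = 2 ∨ HasSl2Pair I ∨ IsGeneratedByKernels I) : IsRRSpace (variety I) := by
  rcases h with rfl | h | h
  · exact isRRSpace_of_HD I hI hn hsm hfl (HD_eq_top_of_dim_two hI hsm hfl)
  · exact isRRSpace_of_HD I hI hn hsm hfl (HD_eq_top_of_hasSl2Pair hI h)
  · exact isRRSpace_of_HD I hI hn hsm hfl (HD_eq_top_of_isGeneratedByKernels h)

end Pool.Agent.RRG
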