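import Pool.Agent.RRG.Defs
import Pool.Agent.RR.Points

/-!
# Closure properties of holomorphic maps and automorphisms
-/

set_option autoImplicit false

open Topology Filter

namespace Pool.Agent.RRG

open Pool.Agent.RR

variable {N : ℕ}

section holo

variable {X : Set (Fin N → ℂ)} {E : Type} [NormedAddCommGroup E] [NormedSpace ℂ E]

lemma IsHolo.of_differentiable {F : (Fin N → ℂ) → E} (hF : ∀ x, DifferentiableAt ℂ F x) :
    IsHolo X (fun x => F x) :=
  fun x => ⟨F, Eventually.of_forall hF, Eventually.of_forall fun _ _ => rfl⟩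

lemma IsHolo.continuous {f : X → E} (hf : IsHolo X f) : Continuous f := by
  rw [continuous_iff_continuousAt]
  intro x
  obtain ⟨F, hF, h⟩ := hf x
  have h1 : ContinuousAt (fun y : X => F y) x :=
    ContinuousAt.comp (f := fun y : X => (y : Fin N → ℂ)) hF.self_of_nhds.continuousAt
      continuous_subtype_val.continuousAt
  refine h1.congr ?_
  have h2 : ∀ᶠ y : X in 𝓝 x, ∀ hy : (y : Fin N → ℂ) ∈ X, f ⟨y, hy⟩ = F y :=
    continuous_subtype_val.continuousAt.eventually h
  filter_upwards [h2] with y hy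
  exact (hy y.2).symm

lemma IsHolo.comp_map {f : X → E} (hf : IsHolo X f) {φ : X → X}
    (hφ : IsHolo X (fun x => (φ x : Fin N → ℂ))) : IsHolo X (fun x => f (φ x)) := by
  intro x
  obtain ⟨G, hG, hGe⟩ := hφ x
  obtain ⟨F, hF, hFe⟩ := hf (φ x)
  have hGx : G x = φ x := (hGe.self_of_nhds x.2).symm
  have hGt : Tendsto G (𝓝 (x : Fin N → ℂ)) (𝓝 (φ x : Fin N → ℂ)) := by
    rw [← hGx]
    exact hG.self_of_nhds.continuousAt
  refine ⟨F ∘ G, ?_, ?_⟩
  · filter_upwards [hG, hGt.eventually hF] with y h1 h2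
    exact h2.comp y h1
  · filter_upwards [hGe, hGt.eventually hFe] with y hy1 hy2 hy
    have h3 := hy1 hy
    have h4 : G y ∈ X := by rw [← h3]; exact (φ ⟨y, hy⟩).2
    have h5 := hy2 h4
    have h6 : (⟨G y, h4⟩ : X) = φ ⟨y, hy⟩ := Subtype.ext h3.symm
    rw [h6] at h5
    exact h5

lemma IsHolo.postcomp {E' : Type} [NormedAddCommGroup E'] [NormedSpace ℂ E'] {f : X → E}
    (hf : IsHolo X f) {g : E → E'} (hg : Differentiable ℂ g) : IsHolo X (fun x => g (f x)) := by
  intro x
  obtain ⟨F, hF, hFe⟩ := hf x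
  refine ⟨g ∘ F, ?_, ?_⟩
  · filter_upwards [hF] with y hy
    exact (hg _).comp y hy
  · filter_upwards [hFe] with y hy hyX
    rw [hy hyX]
    rfl

lemma IsHolo.pi {f : X → Fin N → ℂ} (hf : ∀ i, IsHolo X (fun x => f x i)) : IsHolo X f := by
  intro x
  choose F hF hFe using fun i => hf i x
  refine ⟨fun y i => F i y, ?_, ?_⟩
  · filter_upwards [eventually_all.2 hF] with y hy
    exact differentiableAt_pi.2 hy
  · filter_upwards [eventually_all.2 hFe] with y hy hyX
    funext i
    exact hy i hyX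

lemma IsHolo.add {f g : X → E} (hf : IsHolo X f) (hg : IsHolo X g) :
    IsHolo X (fun x => f x + g x) := by
  intro x
  obtain ⟨F, hF, hFe⟩ := hf x
  obtain ⟨G, hG, hGe⟩ := hg x
  refine ⟨fun y => F y + G y, ?_, ?_⟩
  · filter_upwards [hF, hG] with y h1 h2
    exact h1.add h2
  · filter_upwards [hFe, hGe] with y h1 h2 hy
    rw [h1 hy, h2 hy]

lemma IsHolo.mul {f g : X → ℂ} (hf : IsHolo X f) (hg : IsHolo X g) :
    IsHolo X (fun x => f x * g x) := by
  intro x
  obtain ⟨F, hF, hFe⟩ := hf x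
  obtain ⟨G, hG, hGe⟩ := hg x
  refine ⟨fun y => F y * G y, ?_, ?_⟩
  · filter_upwards [hF, hG] with y h1 h2
    exact h1.mul h2
  · filter_upwards [hFe, hGe] with y h1 h2 hy
    rw [h1 hy, h2 hy]

lemma IsHolo.const (c : E) : IsHolo X (fun _ => c) :=
  IsHolo.of_differentiable (F := fun _ => c) fun _ => differentiableAt_const c

lemma IsHolo.sum {ι : Type*} (s : Finset ι) {f : ι → X → ℂ} (hf : ∀ i ∈ s, IsHolo X (f i)) :
    IsHolo X (fun x => ∑ i ∈ s, f i x) := by
  classical
  induction s using Finset.induction_on with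
  | empty => simpa using IsHolo.const (X := X) (0 : ℂ)
  | insert i s hi ih =>
    simp only [Finset.sum_insert hi]
    exact (hf i (Finset.mem_insert_self i s)).add
      (ih fun j hj => hf j (Finset.mem_insert_of_mem hj))

lemma IsHolo.pow {f : X → ℂ} (hf : IsHolo X f) (n : ℕ) : IsHolo X (fun x => f x ^ n) := by
  induction n with
  | zero => simpa using IsHolo.const (X := X) (1 : ℂ)
  | succ n ih => simp only [pow_succ]; exact ih.mul hf

lemma IsHolo.entire {f : X → ℂ} (hf : IsHolo X f) {h : ℂ → ℂ} (hh : Differentiable ℂ h) :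
    IsHolo X (fun x => h (f x)) := hf.postcomp hh

lemma IsHolo.val : IsHolo X (fun x => (x : Fin N → ℂ)) :=
  IsHolo.of_differentiable (F := fun x => x) fun _ => differentiableAt_id

lemma isHoloAut_refl : IsHoloAut X (Equiv.refl X) := ⟨IsHolo.val, IsHolo.val⟩

lemma IsHoloAut.symm {φ : Equiv.Perm X} (hφ : IsHoloAut X φ) : IsHoloAut X φ.symm :=
  ⟨hφ.2, hφ.1⟩

lemma IsHoloAut.trans {φ ψ : Equiv.Perm X} (hφ : IsHoloAut X φ) (hψ : IsHoloAut X ψ) :
    IsHoloAut X (φ.trans ψ) :=
  ⟨hψ.1.comp_map (φ := φ) hφ.1, hφ.2.comp_map (φ := ψ.symm) hψ.2⟩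

end holo

section variety

variable (I : Ideal (MvPolynomial (Fin N) ℂ))

lemma evalAt_mk (x : variety I) (p : MvPolynomial (Fin N) ℂ) :
    evalAt I x (Ideal.Quotient.mk I p) = MvPolynomial.eval (x : Fin N → ℂ) p := rfl

/-- the point of the variety defined by an algebra homomorphism -/
noncomputable def toPt (χ : CoordRing I →ₐ[ℂ] ℂ) : variety I :=
  ⟨fun i => χ (Ideal.Quotient.mk I (MvPolynomial.X i)), fun p hp => by
    have h : MvPolynomial.eval (fun i => χ (Ideal.Quotient.mk I (MvPolynomial.X i))) p =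
        χ (Ideal.Quotient.mk I p) := by
      have : (MvPolynomial.aeval (fun i => χ (Ideal.Quotient.mk I (MvPolynomial.X i))) :
          MvPolynomial (Fin N) ℂ →ₐ[ℂ] ℂ) = χ.comp (Ideal.Quotient.mkₐ ℂ I) := by
        apply MvPolynomial.algHom_ext
        intro i
        simp
      exact congrFun (congrArg DFunLike.coe this) p
    rw [h, Ideal.Quotient.eq_zero_iff_mem.2 hp, map_zero]⟩

lemma evalAt_toPt (χ : CoordRing I →ₐ[ℂ] ℂ) : evalAt I (toPt I χ) = χ := by
  apply Ideal.Quotient.algHom_ext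
  apply MvPolynomial.algHom_ext
  intro i
  change evalAt I (toPt I χ) (Ideal.Quotient.mk I (MvPolynomial.X i)) =
    χ (Ideal.Quotient.mk I (MvPolynomial.X i))
  rw [evalAt_mk, MvPolynomial.eval_X]
  rfl

lemma toPt_evalAt (x : variety I) : toPt I (evalAt I x) = x := by
  apply Subtype.ext
  funext i
  change evalAt I x (Ideal.Quotient.mk I (MvPolynomial.X i)) = _
  rw [evalAt_mk, MvPolynomial.eval_X]

/-- points of the variety and complex points of the coordinate ring -/
noncomputable def ptEquiv : variety I ≃ (CoordRing I →ₐ[ℂ] ℂ) where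
  toFun := evalAt I
  invFun := toPt I
  left_inv := toPt_evalAt I
  right_inv := evalAt_toPt I

lemma differentiable_eval_mvPolynomial (p : MvPolynomial (Fin N) ℂ) :
    Differentiable ℂ fun x : Fin N → ℂ => MvPolynomial.eval x p :=
  fun x => (AnalyticOnNhd.eval_mvPolynomial p x (Set.mem_univ x)).differentiableAt

lemma isHolo_eval (b : CoordRing I) : IsHolo (variety I) (fun x => evalAt I x b) := by
  obtain ⟨p, rfl⟩ := Ideal.Quotient.mk_surjective b
  exact IsHolo.of_differentiable (F := fun x => MvPolynomial.eval x p)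
    (differentiable_eval_mvPolynomial p)

lemma continuous_evalAt (b : CoordRing I) : Continuous fun x : variety I => evalAt I x b :=
  (isHolo_eval I b).continuous

end variety

end Pool.Agent.RRG
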