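import Pool.Agent.RRG.Near

/-!
# Linked points
-/

set_option autoImplicit false

open Topology Filter

namespace Pool.Agent.RRG

open Pool.Agent.RR

variable {N : ℕ} {I : Ideal (MvPolynomial (Fin N) ℂ)}

/-- `f` is bounded by `M` on the ball of radius `R` -/
def Small (I : Ideal (MvPolynomial (Fin N) ℂ)) (R : ℝ) (f : CoordRing I) (M : ℝ) : Prop :=
  0 ≤ M ∧ ∀ z : variety I, ‖(z : Fin N → ℂ)‖ ≤ R → ‖evalAt I z f‖ ≤ M

/-- `E` is applicable at `x`: it has a kernel element which is larger at `x` than on the ball -/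
def App (R : ℝ) (x : variety I) (E : LND (CoordRing I)) : Prop :=
  ∃ (f : CoordRing I) (M : ℝ), E.D f = 0 ∧ Small I R f M ∧ M < ‖evalAt I x f‖

/-- elementary steps -/
def Step (R : ℝ) (x y : variety I) : Prop :=
  ∃ (E : LND (CoordRing I)) (f : CoordRing I) (M : ℝ) (t : ℂ), E.D f = 0 ∧ Small I R f M ∧
    M < ‖evalAt I x f‖ ∧ y = toPt I (E.flow t (evalAt I x))

/-- linked points -/
def Link (R : ℝ) : variety I → variety I → Prop := Relation.ReflTransGen (Step R)

lemma Step.symm {R : ℝ} {x y : variety I} (h : Step R x y) : Step R y x := by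
  obtain ⟨E, f, M, t, hf, hM, hx, rfl⟩ := h
  refine ⟨E, f, M, -t, hf, hM, ?_, ?_⟩
  · rw [evalAt_toPt, E.flow_ker hf]
    exact hx
  · rw [evalAt_toPt, E.flow_flow, neg_add_cancel, E.flow_zero, toPt_evalAt]

lemma Link.symm {R : ℝ} {x y : variety I} (h : Link R x y) : Link R y x := by
  induction h with
  | refl => exact Relation.ReflTransGen.refl
  | tail _ hst ih => exact Relation.ReflTransGen.head hst.symm ih

lemma Link.trans {R : ℝ} {x y z : variety I} (h : Link R x y) (h' : Link R y z) : Link R x z :=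
  Relation.ReflTransGen.trans h h'

lemma App.step {R : ℝ} {x : variety I} {E : LND (CoordRing I)} (h : App R x E) (t : ℂ) :
    Link R x (toPt I (E.flow t (evalAt I x))) := by
  obtain ⟨f, M, hf, hM, hx⟩ := h
  exact Relation.ReflTransGen.single ⟨E, f, M, t, hf, hM, hx, rfl⟩

lemma App.eventually {R : ℝ} {x : variety I} {E : LND (CoordRing I)} (h : App R x E) :
    ∀ᶠ y in 𝓝 x, App R y E := by
  obtain ⟨f, M, hf, hM, hx⟩ := h
  have h1 : ∀ᶠ y : variety I in 𝓝 x, M < ‖evalAt I y f‖ :=
    (continuous_evalAt I f).norm.continuousAt.eventually_const_lt hx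
  filter_upwards [h1] with y hy
  exact ⟨f, M, hf, hM, hy⟩

/-- for small times the flow is close to the identity, uniformly on balls -/
lemma exists_flow_bound (E : LND (CoordRing I)) (b : CoordRing I) (R : ℝ) :
    ∃ C : ℝ, 0 ≤ C ∧ ∀ z : variety I, ‖(z : Fin N → ℂ)‖ ≤ R → ∀ s : ℂ, ‖s‖ ≤ 1 →
      ‖E.flow s (evalAt I z) b - evalAt I z b‖ ≤ C * ‖s‖ := by
  choose C hC0 hC using fun j : ℕ => exists_ball_bound (E.c b j) R
  refine ⟨∑ j ∈ Finset.range (E.psi b).natDegree, C (j + 1),
    Finset.sum_nonneg fun j _ => hC0 _, fun z hz s hs => ?_⟩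
  have h1 : E.flow s (evalAt I z) b - evalAt I z b =
      ∑ j ∈ Finset.range (E.psi b).natDegree, evalAt I z (E.c b (j + 1)) * s ^ (j + 1) := by
    rw [lnd_flow_eq_sum, Finset.sum_range_succ', E.c_zero, pow_zero, mul_one, add_sub_cancel_right]
  rw [h1, Finset.sum_mul]
  refine (norm_sum_le _ _).trans (Finset.sum_le_sum fun j _ => ?_)
  rw [norm_mul, norm_pow, pow_succ]
  have h2 : ‖s‖ ^ j ≤ 1 := pow_le_one₀ (norm_nonneg _) hs
  have h3 := hC (j + 1) z hz
  calc ‖evalAt I z (E.c b (j + 1))‖ * (‖s‖ ^ j * ‖s‖) ≤ C (j + 1) * (1 * ‖s‖) := by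
        apply mul_le_mul h3 _ (by positivity) (hC0 _)
        exact mul_le_mul_of_nonneg_right h2 (norm_nonneg _)
    _ = C (j + 1) * ‖s‖ := by rw [one_mul]

section

variable [IsDomain (CoordRing I)]

lemma App.conj {R : ℝ} {x : variety I} {E : LND (CoordRing I)} (h : App R x E)
    (E' : LND (CoordRing I)) : ∀ᶠ t in 𝓝 (0 : ℂ), App R x (E.conj (E'.expEquiv t)) := by
  obtain ⟨f, M, hf, hM, hx⟩ := h
  obtain ⟨C, hC0, hC⟩ := exists_flow_bound E' f R
  have hcont : Continuous fun t : ℂ => E'.flow t (evalAt I x) f := by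
    simp only [LND.flow_apply]
    exact (E'.orb (evalAt I x) f).continuous
  have h1 : ∀ᶠ t in 𝓝 (0 : ℂ), M + C * ‖t‖ < ‖E'.flow t (evalAt I x) f‖ := by
    apply Filter.Tendsto.eventually_lt
      (f := fun t : ℂ => M + C * ‖t‖) (g := fun t : ℂ => ‖E'.flow t (evalAt I x) f‖)
      (l := 𝓝 0) (y := M) (z := ‖evalAt I x f‖)
    · have : Continuous fun t : ℂ => M + C * ‖t‖ := by fun_prop
      have h2 := this.tendsto (0 : ℂ)
      simpa using h2
    · have h2 := hcont.norm.tendsto (0 : ℂ)
      rwa [E'.flow_zero] at h2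
    · exact hx
  have h2 : ∀ᶠ t in 𝓝 (0 : ℂ), ‖t‖ ≤ 1 := by
    have := Metric.closedBall_mem_nhds (0 : ℂ) one_pos
    filter_upwards [this] with t ht
    simpa using ht
  filter_upwards [h1, h2] with t ht1 ht2
  refine ⟨E'.expEquiv t f, M + C * ‖t‖, ?_, ⟨?_, ?_⟩, ?_⟩
  · rw [LND.conj_D, conjD_apply, AlgEquiv.symm_apply_apply, hf, map_zero]
  · have := hM.1
    positivity
  · intro z hz
    rw [LND.expEquiv_apply, E'.apply_expHom]
    have h3 := hC z hz t ht2
    have h4 := hM.2 z hz
    have h5 : ‖E'.flow t (evalAt I z) f‖ ≤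
        ‖evalAt I z f‖ + ‖E'.flow t (evalAt I z) f - evalAt I z f‖ := by
      have := norm_add_le (evalAt I z f) (E'.flow t (evalAt I z) f - evalAt I z f)
      rwa [add_sub_cancel] at this
    linarith
  · rw [LND.expEquiv_apply, E'.apply_expHom]
    exact ht1

/-- the applicable derivations span the tangent space -/
theorem exists_app_basis {n : ℕ} (hn : 2 ≤ n) (hsm : IsSmoothOfDim I n) (hfl : IsFlexible I)
    {R : ℝ} {x : variety I} {E₁ : LND (CoordRing I)} (hE₁ : App R x E₁) (hE₁0 : E₁.D ≠ 0) :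
    ∃ E : ℕ → LND (CoordRing I), (∀ j, App R x (E j)) ∧
      LinearIndependent ℂ (fun j : Fin n => valueAt I (E j).D x) := by
  have hflex := flexAlg_of_isFlexible I hsm hfl
  set S := {v : Fin N → ℂ | ∃ E, App R x E ∧ v = valueAt I E.D x} with hS
  have hspan : Submodule.span ℂ S = tangentSpace I x := by
    apply le_antisymm
    · rw [← hfl x]
      apply Submodule.span_mono
      rintro _ ⟨E, -, rfl⟩
      exact ⟨E.D, E.nil, rfl⟩
    · intro v hv
      by_contra hvS
      obtain ⟨f, hf1, hf2⟩ := Submodule.exists_dual_map_eq_bot_of_notMem hvS inferInstance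
      have hfS : ∀ u ∈ Submodule.span ℂ S, f u = 0 := by
        intro u hu
        have h1 : f u ∈ (Submodule.span ℂ S).map f := Submodule.mem_map_of_mem hu
        rwa [hf2, Submodule.mem_bot] at h1
      have hell : ∀ D : Derivation ℂ (CoordRing I) (CoordRing I),
          ell (evalAt I x) (fun i => Ideal.Quotient.mk I (MvPolynomial.X i))
            (fun i => f (Pi.single i 1)) D = f (valueAt I D x) := by
        intro D
        conv_rhs => rw [← Finset.univ_sum_single (valueAt I D x)]
        rw [map_sum]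
        unfold ell
        refine Finset.sum_congr rfl fun k _ => ?_
        have : (Pi.single k (valueAt I D x k) : Fin N → ℂ) =
            (valueAt I D x k) • Pi.single k 1 := by
          rw [← Pi.single_smul, smul_eq_mul, mul_one]
        rw [this, map_smul, smul_eq_mul, mul_comm]
        rfl
      have h1 : ∀ E₀ : LND (CoordRing I), f (valueAt I E₀.D x) = 0 := by
        intro E₀
        rw [← hell]
        refine span_of_app hn hsm.1 hflex (evalAt I x) _ _ (App R x)
          (fun E hE E' => hE.conj E') hE₁ hE₁0 ?_ E₀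
        intro E hE
        rw [hell]
        exact hfS _ (Submodule.subset_span ⟨E, hE, rfl⟩)
      apply hf1
      rw [← hfl x] at hv
      refine Submodule.span_induction (p := fun v _ => f v = 0) ?_ ?_ ?_ ?_ hv
      · rintro _ ⟨D, hD, rfl⟩
        exact h1 (mkLND I hD)
      · exact map_zero f
      · intro a b _ _ ha hb
        rw [map_add, ha, hb, add_zero]
      · intro c a _ ha
        rw [map_smul, ha, smul_zero]
  have hrank : Module.finrank ℂ (Submodule.span ℂ S) = n := by rw [hspan]; exact hsm.2 x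
  obtain ⟨f, hfS, -, hf⟩ := Submodule.exists_fun_fin_finrank_span_eq ℂ S
  let f' : Fin n → Fin N → ℂ := fun j => f (Fin.cast hrank.symm j)
  have hf' : LinearIndependent ℂ f' := hf.comp _ (Fin.cast_injective _)
  choose D hD hDv using fun j : Fin n => hfS (Fin.cast hrank.symm j)
  refine ⟨fun k => if h : k < n then D ⟨k, h⟩ else E₁, ?_, ?_⟩
  · intro k
    by_cases h : k < n
    · simp only [h, dif_pos]
      exact hD _
    · simp only [h, dif_neg, not_false_eq_true]
      exact hE₁
  · have : (fun j : Fin n => valueAt I ((if h : (j : ℕ) < n then D ⟨j, h⟩ else E₁).D) x) = f' := by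
      funext j
      rw [dif_pos j.2]
      exact (hDv j).symm
    rw [this]
    exact hf'

/-- points given by short chains are linked -/
lemma eventually_link_chain {n : ℕ} {R : ℝ} {x : variety I} {E : ℕ → LND (CoordRing I)}
    (hE : ∀ j, App R x (E j)) (m : ℕ) :
    ∀ᶠ p : variety I × (Fin n → ℂ) in 𝓝 (x, 0),
      Link R p.1 (toPt I (chain E (ext p.2) m (evalAt I p.1))) := by
  induction m with
  | zero =>
    refine Eventually.of_forall fun p => ?_
    rw [chain, toPt_evalAt]
    exact Relation.ReflTransGen.refl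
  | succ m ih =>
    let F : variety I × (Fin n → ℂ) → variety I × (Fin n → ℂ) := fun p =>
      (toPt I ((E m).flow (ext p.2 m) (evalAt I p.1)), p.2)
    have hF : Continuous F := by
      refine Continuous.prodMk ?_ continuous_snd
      apply continuous_toPt
      intro b
      simp only [lnd_flow_eq_sum]
      refine continuous_finsetSum _ fun j _ => ?_
      refine Continuous.mul ?_ ?_
      · exact (continuous_evalAt I _).comp continuous_fst
      · exact (((contDiff_ext m).continuous.comp continuous_snd).pow j)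
    have hF0 : F (x, 0) = (x, 0) := by
      simp only [F, ext_zero, Pi.zero_apply, LND.flow_zero, toPt_evalAt]
    have h1 : ∀ᶠ p in 𝓝 (x, (0 : Fin n → ℂ)),
        Link R (F p).1 (toPt I (chain E (ext (F p).2) m (evalAt I (F p).1))) := by
      have h2 := hF.continuousAt (x := (x, (0 : Fin n → ℂ)))
      rw [ContinuousAt, hF0] at h2
      exact h2.eventually ih
    have h2 : ∀ᶠ p : variety I × (Fin n → ℂ) in 𝓝 (x, 0), App R p.1 (E m) := by
      have h3 : Tendsto (Prod.fst : variety I × (Fin n → ℂ) → variety I) (𝓝 (x, 0)) (𝓝 x) :=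
        continuous_fst.continuousAt
      exact h3.eventually (hE m).eventually
    filter_upwards [h1, h2] with p hp1 hp2
    have h3 : Link R p.1 (F p).1 := hp2.step _
    refine h3.trans ?_
    have h4 : chain E (ext p.2) (m + 1) (evalAt I p.1) =
        chain E (ext (F p).2) m (evalAt I (F p).1) := by
      simp only [F, evalAt_toPt]
      rfl
    rw [h4]
    exact hp1

/-- **Openness of the classes**: a point at which a nonzero derivation is applicable is linked to
all nearby points. -/
theorem link_nhds {n : ℕ} (hn : 2 ≤ n) (hsm : IsSmoothOfDim I n) (hfl : IsFlexible I)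
    {R : ℝ} {x : variety I} {E₁ : LND (CoordRing I)} (hE₁ : App R x E₁) (hE₁0 : E₁.D ≠ 0) :
    ∀ᶠ y in 𝓝 x, Link R x y := by
  obtain ⟨E, hE, hli⟩ := exists_app_basis hn hsm hfl hE₁ hE₁0
  obtain ⟨τ, hτd, hτ0, hτ⟩ := exists_chart_inverse I hsm hfl E x hli
  have h1 : ∀ᶠ y : variety I in 𝓝 x, ∀ hy : (y : Fin N → ℂ) ∈ variety I,
      chart I E x (τ y) = ⟨y, hy⟩ := continuous_subtype_val.continuousAt.eventually hτ
  have h2 : Tendsto (fun y : variety I => (x, τ y)) (𝓝 x) (𝓝 (x, (0 : Fin n → ℂ))) := by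
    rw [nhds_prod_eq]
    refine Tendsto.prodMk tendsto_const_nhds ?_
    have h3 : ContinuousAt τ (x : Fin N → ℂ) := hτd.self_of_nhds.continuousAt
    have h4 : Tendsto (fun y : variety I => τ y) (𝓝 x) (𝓝 (τ x)) :=
      ContinuousAt.comp (f := fun y : variety I => (y : Fin N → ℂ)) h3
        continuous_subtype_val.continuousAt
    rwa [hτ0] at h4
  filter_upwards [h1, h2.eventually (eventually_link_chain hE n)] with y hy1 hy2
  have h3 : chart I E x (τ y) = y := hy1 y.2
  rw [← h3]
  exact hy2

end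

end Pool.Agent.RRG
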