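import Pool.Agent.RRG.Sparse

/-!
# Tame sets: reduction of the axioms
-/

set_option autoImplicit false

open Topology Filter

namespace Pool.Agent.RRG

open Pool.Agent.RR

variable {N : ℕ} {I : Ideal (MvPolynomial (Fin N) ℂ)}

/-- an interpolating automorphism `exp(h(a) E)` -/
lemma exists_exp (E : LND (CoordRing I)) {a : CoordRing I} (ha : E.D a = 0)
    (x : ℕ → variety I) (hinj : Function.Injective fun k => evalAt I (x k) a)
    (htend : Tendsto (fun k => ‖evalAt I (x k) a‖) atTop atTop) (t : ℕ → ℂ) :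
    ∃ φ : Equiv.Perm (variety I), IsHoloAut (variety I) φ ∧
      ∀ k, evalAt I (φ (x k)) = E.flow (t k) (evalAt I (x k)) := by
  obtain ⟨h, hh, ht⟩ := exists_entire_interp (fun k => evalAt I (x k) a) hinj htend t
  refine ⟨toVar I (expPerm E a ha h), isHoloAut_exp I E ha hh, fun k => ?_⟩
  rw [evalAt_toVar]
  change E.flow (h (evalAt I (x k) a)) (evalAt I (x k)) = _
  rw [ht]

/-- a good sequence -/
def GoodSeq (a : CoordRing I) (P : Polynomial ℂ) (x : ℕ → variety I) : Prop :=
  (Function.Injective fun k => evalAt I (x k) a) ∧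
    (Tendsto (fun k => ‖evalAt I (x k) a‖) atTop atTop) ∧ ∀ k, P.eval (evalAt I (x k) a) ≠ 0

/-- a set which is finite below each level of the absolute value of a continuous function is
closed and discrete -/
lemma closed_discrete_of_proper {X : Type*} [TopologicalSpace X] [T1Space X] {D : Set X}
    {f : X → ℂ} (hf : Continuous f) (h : ∀ r : ℝ, {x ∈ D | ‖f x‖ ≤ r}.Finite) :
    IsClosed D ∧ DiscreteTopology D := by
  have key : ∀ x : X, ∃ U ∈ 𝓝 x, (D ∩ U).Finite := by
    intro x
    refine ⟨{y | ‖f y‖ < ‖f x‖ + 1}, ?_, ?_⟩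
    · exact (isOpen_lt hf.norm continuous_const).mem_nhds (by simp)
    · exact (h (‖f x‖ + 1)).subset fun y hy => ⟨hy.1, hy.2.le⟩
  constructor
  · rw [isClosed_iff_nhds]
    intro x hx
    obtain ⟨U, hU, hfin⟩ := key x
    by_contra hxD
    have h1 : (D ∩ U)ᶜ ∈ 𝓝 x := hfin.isClosed.isOpen_compl.mem_nhds fun h => hxD h.1
    obtain ⟨y, hy1, hy2⟩ := hx (U ∩ (D ∩ U)ᶜ) (inter_mem hU h1)
    exact hy1.2 ⟨hy2, hy1.1⟩
  · rw [discreteTopology_subtype_iff]
    intro x hx
    obtain ⟨U, hU, hfin⟩ := key x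
    have h1 : ((D ∩ U) \ {x})ᶜ ∈ 𝓝 x :=
      (hfin.subset Set.sdiff_subset).isClosed.isOpen_compl.mem_nhds fun h => h.2 rfl
    rw [← Filter.empty_mem_iff_bot, Filter.mem_inf_iff]
    refine ⟨(U ∩ ((D ∩ U) \ {x})ᶜ) ∩ {x}ᶜ, ?_, D, Filter.mem_principal_self D, ?_⟩
    · rw [nhdsWithin]
      exact inter_mem_inf (inter_mem hU h1) (Filter.mem_principal_self _)
    · symm
      rw [Set.eq_empty_iff_forall_notMem]
      rintro y ⟨⟨⟨hyU, hy1⟩, hy2⟩, hyD⟩
      exact hy1 ⟨⟨hyD, hyU⟩, hy2⟩

lemma isClosed_variety (I : Ideal (MvPolynomial (Fin N) ℂ)) : IsClosed (variety I) := by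
  have : variety I = ⋂ p ∈ I, {x | MvPolynomial.eval x p = 0} := by
    ext x
    simp [variety]
  rw [this]
  exact isClosed_biInter fun p _ => isClosed_eq (MvPolynomial.continuous_eval p) continuous_const

lemma isExhaustion_norm (I : Ideal (MvPolynomial (Fin N) ℂ)) :
    IsExhaustion (variety I) (fun x => ‖(x : Fin N → ℂ)‖) := by
  refine ⟨continuous_norm.comp continuous_subtype_val, fun x => norm_nonneg _, fun c => ?_⟩
  have h1 : IsCompact (Metric.closedBall (0 : Fin N → ℂ) c) := isCompact_closedBall _ _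
  have h2 := (isClosed_variety I).isClosedEmbedding_subtypeVal.isCompact_preimage h1
  convert h2 using 1
  ext x
  simp

/-- tame sets, relative to `a` and `P` -/
def Tame (I : Ideal (MvPolynomial (Fin N) ℂ)) (a : CoordRing I) (P : Polynomial ℂ) :
    Set (Set (variety I)) :=
  {D | D.Infinite ∧ ∃ g : Equiv.Perm (variety I), IsHoloAut (variety I) g ∧
    Set.InjOn (fun x => evalAt I (g x) a) D ∧ (∀ r : ℝ, {x ∈ D | ‖evalAt I (g x) a‖ ≤ r}.Finite) ∧
    ∀ x ∈ D, P.eval (evalAt I (g x) a) ≠ 0}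

lemma Tame.goodSeq {a : CoordRing I} {P : Polynomial ℂ} {D : Set (variety I)}
    {g : Equiv.Perm (variety I)}
    (h1 : Set.InjOn (fun x => evalAt I (g x) a) D)
    (h2 : ∀ r : ℝ, {x ∈ D | ‖evalAt I (g x) a‖ ≤ r}.Finite)
    (h3 : ∀ x ∈ D, P.eval (evalAt I (g x) a) ≠ 0) {ν : ℕ → D} (hν : Function.Injective ν) :
    GoodSeq a P (fun k => g (ν k)) := by
  refine ⟨fun k l hkl => ?_, ?_, fun k => h3 _ (ν k).2⟩
  · exact hν (Subtype.ext (h1 (ν k).2 (ν l).2 hkl))
  · rw [← Nat.cofinite_eq_atTop, tendsto_atTop]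
    intro b
    rw [Filter.eventually_cofinite]
    have hfin := h2 b
    have hsub : {k : ℕ | ¬ b ≤ ‖evalAt I (g (ν k)) a‖} ⊆
        (fun k => ((ν k : D) : variety I)) ⁻¹' {x ∈ D | ‖evalAt I (g x) a‖ ≤ b} := by
      intro k hk
      exact ⟨(ν k).2, (not_le.1 hk).le⟩
    refine Set.Finite.subset (Set.Finite.preimage ?_ hfin) hsub
    intro k _ l _ hkl
    exact hν (Subtype.ext hkl)

/-- the reduction of the axioms to the equivalence of good sequences and to the statement on
sparse sets -/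
theorem isRRSpace_of_data (I : Ideal (MvPolynomial (Fin N) ℂ)) [IsDomain (CoordRing I)]
    (E : LND (CoordRing I)) (hE : E.D ≠ 0)
    (a : CoordRing I) (ha : Transcendental ℂ a) (haE : E.D a = 0) (P : Polynomial ℂ)
    (hequiv : ∀ x y : ℕ → variety I, GoodSeq a P x → GoodSeq a P y →
      ∃ φ : Equiv.Perm (variety I), IsHoloAut (variety I) φ ∧ ∀ k, φ (x k) = y k)
    (hsparse : ∃ R : ℕ → ℝ, (∀ n, 0 < R n) ∧ ¬ BddAbove (Set.range R) ∧
      ∀ D : Set (variety I),
        (∀ n : ℕ, 1 ≤ n → {x ∈ D | ‖(x : Fin N → ℂ)‖ ≤ R n}.encard ≤ n) →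
        ∃ g : Equiv.Perm (variety I), IsHoloAut (variety I) g ∧
          Set.InjOn (fun x => evalAt I (g x) a) D ∧
          (∀ r : ℝ, {x ∈ D | ‖evalAt I (g x) a‖ ≤ r}.Finite) ∧
          ∀ x ∈ D, P.eval (evalAt I (g x) a) ≠ 0) :
    IsRRSpace (variety I) := by
  have hcont : ∀ g : Equiv.Perm (variety I), IsHoloAut (variety I) g →
      Continuous fun x => evalAt I (g x) a := fun g hg =>
    ((isHolo_eval I a).comp_map (φ := g) hg.1).continuous
  refine ⟨Tame I a P, ?_, ?_, ?_, ?_, ?_⟩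
  · rintro D ⟨hDi, g, hg, -, h2, -⟩
    exact ⟨hDi, closed_discrete_of_proper (hcont g hg) h2⟩
  · rintro D ⟨hDi, g, hg, h1, h2, h3⟩ D' ⟨hDi', g', hg', h1', h2', h3'⟩ f hf
    have hcount : D.Countable := by
      have : D = ⋃ n : ℕ, {x ∈ D | ‖evalAt I (g x) a‖ ≤ n} := by
        ext x
        constructor
        · intro hx
          obtain ⟨n, hn⟩ := exists_nat_ge ‖evalAt I (g x) a‖
          exact Set.mem_iUnion.2 ⟨n, hx, hn⟩
        · intro hx
          obtain ⟨n, hn⟩ := Set.mem_iUnion.1 hx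
          exact hn.1
      rw [this]
      exact Set.countable_iUnion fun n : ℕ => (h2 (n : ℝ)).countable
    have : Countable D := hcount.to_subtype
    have : Infinite D := hDi.to_subtype
    obtain ⟨ν⟩ : Nonempty (ℕ ≃ D) := by
      obtain ⟨_⟩ := nonempty_denumerable D
      exact ⟨(Denumerable.eqv D).symm⟩
    have hx := Tame.goodSeq (P := P) h1 h2 h3 ν.injective
    have hy := Tame.goodSeq (P := P) h1' h2' h3' (hf.comp ν.injective)
    obtain ⟨φ, hφ, hφe⟩ := hequiv _ _ hx hy
    refine ⟨(g.trans φ).trans g'.symm, (hg.trans hφ).trans hg'.symm, fun x => ?_⟩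
    obtain ⟨k, rfl⟩ := ν.surjective x
    rw [Equiv.trans_apply, Equiv.trans_apply, hφe k]
    exact g'.symm_apply_apply _
  · obtain ⟨R, hR1, hR2, hR3⟩ := hsparse
    refine ⟨fun x => ‖(x : Fin N → ℂ)‖, R, isExhaustion_norm I, hR1, hR2, fun D hDi hD => ?_⟩
    exact ⟨hDi, hR3 D hD⟩
  · rintro D ⟨hDi, g, hg, h1, h2, h3⟩ φ hφ
    refine ⟨hDi.image φ.injective.injOn, φ.symm.trans g, hφ.symm.trans hg, ?_, ?_, ?_⟩
    · rintro _ ⟨x, hx, rfl⟩ _ ⟨y, hy, rfl⟩ hxy
      simp only [Equiv.trans_apply, Equiv.symm_apply_apply] at hxy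
      rw [h1 hx hy hxy]
    · intro r
      refine ((h2 r).image φ).subset ?_
      rintro _ ⟨⟨x, hx, rfl⟩, hxr⟩
      rw [Equiv.trans_apply, Equiv.symm_apply_apply] at hxr
      exact ⟨x, ⟨hx, hxr⟩, rfl⟩
    · rintro _ ⟨x, hx, rfl⟩
      rw [Equiv.trans_apply, Equiv.symm_apply_apply]
      exact h3 x hx
  · refine ⟨fun x => valueAt I E.D x, fun x => evalAt I x a, isCompleteField_lnd I E, ?_,
      isHolo_eval I a, ?_, killedBy_lnd I E haE⟩
    · by_contra hcon
      push Not at hcon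
      apply hE
      -- all coordinates are killed
      have h1 : ∀ i, E.D (Ideal.Quotient.mk I (MvPolynomial.X i)) = 0 := by
        intro i
        by_contra h
        obtain ⟨χ, hχ⟩ := exists_point_ne_zero h
        apply hχ
        have := congrFun (hcon (toPt I χ)) i
        simp only [valueAt, evalAt_toPt] at this
        exact this
      have h2 : (⊤ : Subalgebra ℂ (CoordRing I)) ≤ E.ker := by
        have h3 : Algebra.adjoin ℂ (Set.range fun i => Ideal.Quotient.mk I (MvPolynomial.X i)) =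
            (⊤ : Subalgebra ℂ (CoordRing I)) := by
          rw [Algebra.adjoin_range_eq_range_aeval, AlgHom.range_eq_top]
          intro b
          obtain ⟨p, rfl⟩ := Ideal.Quotient.mk_surjective b
          refine ⟨p, ?_⟩
          have : (MvPolynomial.aeval fun i => Ideal.Quotient.mk I (MvPolynomial.X i)) =
              Ideal.Quotient.mkₐ ℂ I := by
            apply MvPolynomial.algHom_ext
            intro i
            simp
          rw [this]
          rfl
        rw [← h3, Algebra.adjoin_le_iff]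
        rintro _ ⟨i, rfl⟩
        exact h1 i
      apply Derivation.ext
      intro b
      exact h2 (Algebra.mem_top (x := b))
    · by_contra hcon
      push Not at hcon
      obtain ⟨χ⟩ : Nonempty (CoordRing I →ₐ[ℂ] ℂ) := exists_point
      apply ha
      have : a = algebraMap ℂ _ (χ a) := by
        by_contra h
        rw [← sub_eq_zero] at h
        obtain ⟨χ', hχ'⟩ := exists_point_ne_zero h
        apply hχ'
        rw [map_sub, AlgHom.commutes]
        have := hcon (toPt I χ') (toPt I χ)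
        rw [evalAt_toPt, evalAt_toPt] at this
        rw [this]
        exact sub_self _
      rw [this]
      exact isAlgebraic_algebraMap _

end Pool.Agent.RRG
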