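import Pool.Agent.RRG.Link
import Pool.Agent.RRG.Tame

/-!
# The linking lemma
-/

set_option autoImplicit false

open Topology Filter

namespace Pool.Agent.RRG

open Pool.Agent.RR

variable {N : ℕ} {I : Ideal (MvPolynomial (Fin N) ℂ)}

lemma exists_large_eval {P : Polynomial ℂ} (hP : 0 < P.natDegree) {M : ℝ} (hM : 0 ≤ M) :
    ∃ t : ℂ, M < ‖P.eval t‖ := by
  obtain ⟨t, ht⟩ := IsAlgClosed.eval_surjective (p := P) hP.ne' ((M + 1 : ℝ) : ℂ)
  refine ⟨t, ?_⟩
  have ht' : P.eval t = ((M + 1 : ℝ) : ℂ) := ht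
  rw [ht', Complex.norm_real, Real.norm_eq_abs, abs_of_nonneg (by linarith)]
  linarith

lemma orb_natDegree_pos_of_D {A : Type*} [CommRing A] [Algebra ℂ A] (E : LND A) {b : A}
    {χ : A →ₐ[ℂ] ℂ} (h : χ (E.D b) ≠ 0) : 0 < (E.orb χ b).natDegree := by
  have h1 : (E.orb χ b).coeff 1 ≠ 0 := by
    rw [LND.coeff_orb]
    simpa [LND.c] using h
  exact lt_of_lt_of_le one_pos (Polynomial.le_natDegree_of_ne_zero h1)

section

variable [IsDomain (CoordRing I)]

/-- each good point is linked to a point where `a` is large and `v` is nonzero -/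
theorem exists_link_large {n : ℕ} (hn : 2 ≤ n) (hsm : IsSmoothOfDim I n) (hfl : IsFlexible I)
    {R : ℝ} {x : variety I} {E₁ : LND (CoordRing I)} (hE₁ : App R x E₁) (hE₁0 : E₁.D ≠ 0)
    {D₀ : LND (CoordRing I)} (hD₀ : D₀.D ≠ 0) {a : CoordRing I} (ha : D₀.D a = 0)
    (hat : Transcendental ℂ a) {M : ℝ} (hM : Small I R a M) {v : CoordRing I} (hv : v ≠ 0) :
    ∃ z, Link R x z ∧ M < ‖evalAt I z a‖ ∧ evalAt I z v ≠ 0 := by
  have hn0 : 0 < n := by omega
  have hflex := flexAlg_of_isFlexible I hsm hfl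
  obtain ⟨E₀, hE₀⟩ := exists_LND_ne_zero hn0 hsm.1 hflex hat
  obtain ⟨p, ⟨hp1, hp2⟩, hp3⟩ := exists_ne_zero_near hn0 hsm.1 hflex hE₀ x
    ((link_nhds hn hsm hfl hE₁ hE₁0).and hE₁.eventually)
  -- an applicable derivation which moves `a`
  obtain ⟨E, hE, hEa⟩ : ∃ E, App R p E ∧ evalAt I p (E.D a) ≠ 0 := by
    by_contra hcon
    push Not at hcon
    have h1 := span_of_app (N := 1) hn hsm.1 hflex (evalAt I p) (fun _ => a) (fun _ => 1)
      (App R p) (fun E hE E' => hE.conj E') hp2 hE₁0 (fun E hE => by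
        unfold ell
        simp [hcon E hE]) E₀
    apply hp3
    simpa [ell] using h1
  obtain ⟨T, hT⟩ := exists_large_eval (orb_natDegree_pos_of_D E hEa) hM.1
  rw [← LND.flow_apply] at hT
  set z₁ := toPt I (E.flow T (evalAt I p)) with hz₁
  have hz₁a : M < ‖evalAt I z₁ a‖ := by rw [hz₁, evalAt_toPt]; exact hT
  have hz₁A : App R z₁ D₀ := ⟨a, M, ha, hM, hz₁a⟩
  have h2 : ∀ᶠ z : variety I in 𝓝 z₁, M < ‖evalAt I z a‖ :=
    (continuous_evalAt I a).norm.continuousAt.eventually_const_lt hz₁a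
  obtain ⟨z, ⟨hz1, hz2⟩, hz3⟩ := exists_ne_zero_near hn0 hsm.1 hflex hv z₁
    ((link_nhds hn hsm hfl hz₁A hD₀).and h2)
  exact ⟨z, (hp1.trans (hE.step T)).trans hz1, hz2, hz3⟩

omit [IsDomain (CoordRing I)] in
/-- paths avoiding a hypersurface -/
lemma exists_path {n : ℕ} (E : ℕ → LND (CoordRing I)) (z : variety I) (t : Fin n → ℂ)
    {v : CoordRing I} (hz : evalAt I z v ≠ 0) (hz' : evalAt I (chart I E z t) v ≠ 0) :
    ∃ γ : unitInterval → variety I, Continuous γ ∧ γ 0 = z ∧ γ 1 = chart I E z t ∧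
      ∀ r, evalAt I (γ r) v ≠ 0 := by
  let P : Polynomial ℂ := MvPolynomial.aeval (fun i => Polynomial.C (t i) * Polynomial.X)
    (kappa (n := n) E z v)
  have hP : ∀ c : ℂ, P.eval c = evalAt I (chart I E z (c • t)) v := by
    intro c
    rw [← eval_kappa]
    have : ∀ Q : MvPolynomial (Fin n) ℂ,
        (MvPolynomial.aeval (fun i => Polynomial.C (t i) * Polynomial.X) Q : Polynomial ℂ).eval c =
        MvPolynomial.eval (c • t) Q := by
      intro Q
      induction Q using MvPolynomial.induction_on with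
      | C a => simp
      | add p q hp hq => simp only [map_add, Polynomial.eval_add, hp, hq]
      | mul_X p k hp =>
        simp only [map_mul, Polynomial.eval_mul, hp, MvPolynomial.aeval_X, MvPolynomial.eval_X,
          Polynomial.eval_C, Polynomial.eval_X, Pi.smul_apply, smul_eq_mul]
        ring
    exact this _
  have hP0 : P.eval 0 ≠ 0 := by
    rw [hP, zero_smul, chart_zero]
    exact hz
  have hP1 : P.eval 1 ≠ 0 := by
    rw [hP, one_smul]
    exact hz'
  have hPne : P ≠ 0 := by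
    intro h
    rw [h, Polynomial.eval_zero] at hP0
    exact hP0 rfl
  have hpc : IsPathConnected (((P.roots.toFinset : Finset ℂ) : Set ℂ)ᶜ) := by
    apply Set.Countable.isPathConnected_compl_of_one_lt_rank
    · rw [Complex.rank_real_complex]
      exact Nat.one_lt_ofNat
    · exact (Finset.finite_toSet _).countable
  have hmem : ∀ c : ℂ, P.eval c ≠ 0 → c ∈ ((P.roots.toFinset : Finset ℂ) : Set ℂ)ᶜ := by
    intro c hc hc'
    rw [Finset.mem_coe, Multiset.mem_toFinset, Polynomial.mem_roots hPne] at hc'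
    exact hc hc'
  obtain ⟨γ, hγ⟩ := hpc.joinedIn 0 (hmem 0 hP0) 1 (hmem 1 hP1)
  refine ⟨fun r => chart I E z (γ r • t), ?_, ?_, ?_, ?_⟩
  · have h1 : Continuous fun s : Fin n → ℂ => chart I E z s :=
      Continuous.subtype_mk (contDiff_chart I E z).continuous _
    exact h1.comp (γ.continuous.smul continuous_const)
  · simp only [γ.source, zero_smul, chart_zero]
  · simp only [γ.target, one_smul]
  · intro r
    rw [← hP]
    intro h0
    apply hγ r
    rw [Finset.mem_coe, Multiset.mem_toFinset, Polynomial.mem_roots hPne]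
    exact h0

/-- uniformly large values of polynomials with nonvanishing top coefficient -/
lemma exists_uniform_large {d : ℕ} (hd : 0 < d) (c : ℕ → unitInterval → ℂ)
    (hc : ∀ j, Continuous (c j)) (hne : ∀ r, c d r ≠ 0) (C : ℝ) :
    ∃ T : ℂ, ∀ r, C < ‖∑ j ∈ Finset.range (d + 1), c j r * T ^ j‖ := by
  obtain ⟨r₀, -, hr₀⟩ := isCompact_univ.exists_isMinOn (s := (Set.univ : Set unitInterval))
    ⟨0, trivial⟩ (hc d).norm.continuousOn
  set m := ‖c d r₀‖ with hm
  have hm0 : 0 < m := norm_pos_iff.2 (hne r₀)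
  have hm1 : ∀ r, m ≤ ‖c d r‖ := fun r => hr₀ (Set.mem_univ r)
  have hB : ∀ j, ∃ B : ℝ, ∀ r, ‖c j r‖ ≤ B := by
    intro j
    obtain ⟨B, hB⟩ := isCompact_univ.exists_bound_of_continuousOn
      (s := (Set.univ : Set unitInterval)) (hc j).continuousOn
    exact ⟨B, fun r => hB r (Set.mem_univ r)⟩
  choose B hB using hB
  set S := ∑ j ∈ Finset.range d, |B j| with hS
  have hS0 : 0 ≤ S := Finset.sum_nonneg fun j _ => abs_nonneg _
  set T : ℝ := 1 + (|C| + 1 + S) / m with hT
  have hT1 : 1 ≤ T := by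
    have : 0 ≤ (|C| + 1 + S) / m := by positivity
    linarith
  have hT0 : 0 ≤ T := by linarith
  refine ⟨(T : ℂ), fun r => ?_⟩
  have hTn : ‖(T : ℂ)‖ = T := by rw [Complex.norm_real, Real.norm_eq_abs, abs_of_nonneg hT0]
  obtain ⟨d', rfl⟩ := Nat.exists_eq_succ_of_ne_zero hd.ne'
  have h1 : ‖∑ j ∈ Finset.range (d' + 1), c j r * (T : ℂ) ^ j‖ ≤ S * T ^ d' := by
    refine (norm_sum_le _ _).trans ?_
    rw [hS, Finset.sum_mul]
    refine Finset.sum_le_sum fun j hj => ?_
    rw [norm_mul, norm_pow, hTn]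
    have h2 : j ≤ d' := by
      have := Finset.mem_range.1 hj
      omega
    apply mul_le_mul ((hB j r).trans (le_abs_self _)) (pow_le_pow_right₀ hT1 h2) (by positivity)
      (abs_nonneg _)
  have h2 : m * T ^ (d' + 1) ≤ ‖c (d' + 1) r * (T : ℂ) ^ (d' + 1)‖ := by
    rw [norm_mul, norm_pow, hTn]
    exact mul_le_mul_of_nonneg_right (hm1 r) (by positivity)
  have h3 : ‖c (d' + 1) r * (T : ℂ) ^ (d' + 1)‖ ≤
      ‖∑ j ∈ Finset.range (d' + 1 + 1), c j r * (T : ℂ) ^ j‖ +
        ‖∑ j ∈ Finset.range (d' + 1), c j r * (T : ℂ) ^ j‖ := by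
    rw [Finset.sum_range_succ _ (d' + 1)]
    have := norm_sub_le (∑ j ∈ Finset.range (d' + 1), c j r * (T : ℂ) ^ j +
      c (d' + 1) r * (T : ℂ) ^ (d' + 1)) (∑ j ∈ Finset.range (d' + 1), c j r * (T : ℂ) ^ j)
    rwa [add_sub_cancel_left] at this
  have h4 : 1 ≤ T ^ d' := one_le_pow₀ hT1
  have h5 : m * T = m + (|C| + 1 + S) := by
    rw [hT]
    field_simp
  have h6 : (m * T - S) * T ^ d' ≤ ‖∑ j ∈ Finset.range (d' + 1 + 1), c j r * (T : ℂ) ^ j‖ := by
    have h7 : (m * T - S) * T ^ d' = m * T ^ (d' + 1) - S * T ^ d' := by ring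
    rw [h7]
    linarith
  have h7 : m * T - S ≤ (m * T - S) * T ^ d' := by
    have : 0 ≤ m * T - S := by rw [h5]; linarith [abs_nonneg C]
    nlinarith
  have h8 : C < m * T - S := by
    rw [h5]
    linarith [le_abs_self C]
  have h9 : Nat.succ d' + 1 = d' + 1 + 1 := rfl
  rw [h9]
  linarith

/-- finitely many kernel elements generate -/
lemma exists_finset_ker_gen {A : Type*} [CommRing A] [Algebra ℂ A] [Algebra.FiniteType ℂ A]
    (hHD : HD A = ⊤) : ∃ s : Finset A, (∀ x ∈ s, ∃ E : LND A, E.D ≠ 0 ∧ E.D x = 0) ∧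
      Algebra.adjoin ℂ (s : Set A) = ⊤ := by
  classical
  obtain ⟨s, hs⟩ := (inferInstance : Algebra.FiniteType ℂ A).out
  have key : ∀ t : Finset A, ∃ s' : Finset A, (∀ x ∈ s', ∃ E : LND A, E.D ≠ 0 ∧ E.D x = 0) ∧
      (t : Set A) ⊆ Algebra.adjoin ℂ (s' : Set A) := by
    intro t
    induction t using Finset.induction_on with
    | empty => exact ⟨∅, by simp, by simp⟩
    | insert x t _ ih =>
      obtain ⟨s₁, h1, h2⟩ := ih
      have hx : x ∈ HD A := by rw [hHD]; trivial
      obtain ⟨s₂, hs₂, hx₂⟩ : ∃ s₂ : Finset A,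
          (∀ x ∈ s₂, ∃ E : LND A, E.D ≠ 0 ∧ E.D x = 0) ∧ x ∈ Algebra.adjoin ℂ (s₂ : Set A) := by
        refine Algebra.adjoin_induction (p := fun x _ => ∃ s₂ : Finset A,
          (∀ x ∈ s₂, ∃ E : LND A, E.D ≠ 0 ∧ E.D x = 0) ∧ x ∈ Algebra.adjoin ℂ (s₂ : Set A))
          ?_ ?_ ?_ ?_ hx
        · intro y hy
          refine ⟨{y}, ?_, Algebra.subset_adjoin (by simp)⟩
          intro z hz
          rw [Finset.mem_singleton] at hz
          rw [hz]
          exact hy
        · intro z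
          exact ⟨∅, by simp, Subalgebra.algebraMap_mem _ z⟩
        · rintro y z _ _ ⟨a, ha, hya⟩ ⟨b, hb, hzb⟩
          refine ⟨a ∪ b, ?_, ?_⟩
          · intro w hw
            rcases Finset.mem_union.1 hw with h | h
            · exact ha w h
            · exact hb w h
          · exact Subalgebra.add_mem _ (Algebra.adjoin_mono (by simp) hya)
              (Algebra.adjoin_mono (by simp) hzb)
        · rintro y z _ _ ⟨a, ha, hya⟩ ⟨b, hb, hzb⟩
          refine ⟨a ∪ b, ?_, ?_⟩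
          · intro w hw
            rcases Finset.mem_union.1 hw with h | h
            · exact ha w h
            · exact hb w h
          · exact Subalgebra.mul_mem _ (Algebra.adjoin_mono (by simp) hya)
              (Algebra.adjoin_mono (by simp) hzb)
      refine ⟨s₁ ∪ s₂, ?_, ?_⟩
      · intro w hw
        rcases Finset.mem_union.1 hw with h | h
        · exact h1 w h
        · exact hs₂ w h
      · rw [Finset.coe_insert, Set.insert_subset_iff]
        exact ⟨Algebra.adjoin_mono (by simp) hx₂,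
          h2.trans (Algebra.adjoin_mono (by simp))⟩
  obtain ⟨s', h1, h2⟩ := key s
  refine ⟨s', h1, ?_⟩
  rw [eq_top_iff, ← hs, Algebra.adjoin_le_iff]
  exact h2

omit [IsDomain (CoordRing I)] in
/-- outside a large ball some nonzero derivation is applicable -/
theorem exists_radius_app (hHD : HD (CoordRing I) = ⊤) (R : ℝ) :
    ∃ R' : ℝ, ∀ x : variety I, R' < ‖(x : Fin N → ℂ)‖ →
      ∃ E : LND (CoordRing I), App R x E ∧ E.D ≠ 0 := by
  classical
  obtain ⟨s, hs1, hs2⟩ := exists_finset_ker_gen hHD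
  choose C hC0 hC using fun b : CoordRing I => exists_ball_bound b R
  -- enumerate
  let c : ℕ → CoordRing I := fun k => if h : k < s.card then (s.equivFin.symm ⟨k, h⟩ : CoordRing I)
    else 0
  have hc : Algebra.adjoin ℂ (Set.range c) = ⊤ := by
    rw [eq_top_iff, ← hs2]
    apply Algebra.adjoin_mono
    intro x hx
    refine ⟨s.equivFin ⟨x, hx⟩, ?_⟩
    simp only [c]
    rw [dif_pos (s.equivFin ⟨x, hx⟩).2]
    simp
  obtain ⟨R', hR'⟩ := exists_norm_bound c hc (∑ b ∈ s, C b)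
  refine ⟨R', fun x hx => ?_⟩
  have h1 : ¬ ∀ k, ‖evalAt I x (c k)‖ ≤ ∑ b ∈ s, C b := fun h => absurd (hR' x h) (not_le.2 hx)
  push Not at h1
  obtain ⟨k, hk⟩ := h1
  have hsum0 : 0 ≤ ∑ b ∈ s, C b := Finset.sum_nonneg fun b _ => hC0 b
  by_cases hks : k < s.card
  · simp only [c] at hk
    rw [dif_pos hks] at hk
    set f : CoordRing I := (s.equivFin.symm ⟨k, hks⟩ : CoordRing I) with hf
    have hfs : f ∈ s := (s.equivFin.symm ⟨k, hks⟩).2
    obtain ⟨E, hE, hEf⟩ := hs1 f hfs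
    refine ⟨E, ⟨f, C f, hEf, ⟨hC0 f, hC f⟩, ?_⟩, hE⟩
    exact lt_of_le_of_lt (Finset.single_le_sum (f := C) (fun b _ => hC0 b) hfs) hk
  · simp only [c] at hk
    rw [dif_neg hks, map_zero, norm_zero] at hk
    linarith

/-- **Linking lemma.** Outside a large ball any two points are linked. -/
theorem exists_radius_link {n : ℕ} (hn : 2 ≤ n) (hsm : IsSmoothOfDim I n) (hfl : IsFlexible I)
    (hHD : HD (CoordRing I) = ⊤) (R : ℝ) :
    ∃ R' : ℝ, ∀ x y : variety I, R' < ‖(x : Fin N → ℂ)‖ → R' < ‖(y : Fin N → ℂ)‖ →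
      Link R x y := by
  have hn0 : 0 < n := by omega
  have hflex := flexAlg_of_isFlexible I hsm hfl
  obtain ⟨R', hR'⟩ := exists_radius_app hHD R
  refine ⟨R', fun x y hx hy => ?_⟩
  obtain ⟨E₁, hE₁, hE₁0⟩ := hR' x hx
  obtain ⟨E₂, hE₂, hE₂0⟩ := hR' y hy
  -- the derivation `E₁`, a kernel element and a moved element
  obtain ⟨a, ha, hat⟩ := E₁.exists_transcendental_ker' hn hsm.1 hE₁0
  obtain ⟨M, hM0, hMb⟩ := exists_ball_bound a R
  have hM : Small I R a M := ⟨hM0, hMb⟩
  obtain ⟨b, hb⟩ : ∃ b, E₁.D b ≠ 0 := by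
    by_contra h
    push Not at h
    exact hE₁0 (Derivation.ext h)
  set d := (E₁.psi b).natDegree with hd
  have hd0 : 0 < d := by
    rw [Nat.pos_iff_ne_zero, Ne, hd, LND.natDegree_psi_eq_zero_iff]
    exact hb
  set v := E₁.c b d with hv
  have hv0 : v ≠ 0 := by
    rw [hv, ← LND.coeff_psi]
    intro h
    have h1 : (E₁.psi b).leadingCoeff = 0 := h
    rw [Polynomial.leadingCoeff_eq_zero] at h1
    rw [hd, h1, Polynomial.natDegree_zero] at hd0
    exact lt_irrefl _ hd0
  obtain ⟨z, hxz, hza, hzv⟩ := exists_link_large hn hsm hfl hE₁ hE₁0 hE₁0 ha hat hM hv0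
  obtain ⟨w, hyw, hwa, hwv⟩ := exists_link_large hn hsm hfl hE₂ hE₂0 hE₁0 ha hat hM hv0
  -- a chart at `z` and a point near `w` in its image
  have hzA : App R z E₁ := ⟨a, M, ha, hM, hza⟩
  have hwA : App R w E₁ := ⟨a, M, ha, hM, hwa⟩
  obtain ⟨E, -, hli⟩ := exists_app_basis hn hsm hfl hzA hE₁0
  obtain ⟨c, hc0, hc⟩ := exists_image_chart hn0 hsm hfl hflex E z hli
  have h2 : ∀ᶠ y : variety I in 𝓝 w, M < ‖evalAt I y a‖ :=
    (continuous_evalAt I a).norm.continuousAt.eventually_const_lt hwa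
  obtain ⟨w', ⟨hw1, hw2⟩, hw3⟩ := exists_ne_zero_near hn0 hsm.1 hflex (mul_ne_zero hc0 hv0) w
    ((link_nhds hn hsm hfl hwA hE₁0).and h2)
  rw [map_mul] at hw3
  obtain ⟨t, ht⟩ := hc w' (left_ne_zero_of_mul hw3)
  have hw'v : evalAt I (chart I E z t) v ≠ 0 := by
    rw [ht]
    exact right_ne_zero_of_mul hw3
  obtain ⟨γ, hγc, hγ0, hγ1, hγv⟩ := exists_path E z t hzv hw'v
  -- push the path far away along the flow of `E₁`
  obtain ⟨C, hC0, hC⟩ := exists_ball_bound b R'
  obtain ⟨T, hT⟩ := exists_uniform_large hd0 (fun j r => evalAt I (γ r) (E₁.c b j))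
    (fun j => (continuous_evalAt I _).comp hγc) hγv C
  let ω : unitInterval → variety I := fun r => toPt I (E₁.flow T (evalAt I (γ r)))
  have hωc : Continuous ω := by
    apply continuous_toPt
    intro b'
    simp only [lnd_flow_eq_sum]
    refine continuous_finsetSum _ fun j _ => ?_
    exact ((continuous_evalAt I _).comp hγc).mul continuous_const
  have hωR : ∀ r, R' < ‖(ω r : Fin N → ℂ)‖ := by
    intro r
    by_contra hcon
    push Not at hcon
    have h3 := hC (ω r) hcon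
    have h4 := hT r
    simp only [ω, evalAt_toPt, lnd_flow_eq_sum] at h3
    exact absurd h3 (not_le.2 h4)
  have hωn : ∀ r, ∀ᶠ y in 𝓝 (ω r), Link R (ω r) y := by
    intro r
    obtain ⟨E', hE', hE'0⟩ := hR' (ω r) (hωR r)
    exact link_nhds hn hsm hfl hE' hE'0
  have hω : ∀ r, Link R (ω 0) (ω r) := by
    have hclopen : IsClopen {r | Link R (ω 0) (ω r)} := by
      constructor
      · rw [← isOpen_compl_iff, isOpen_iff_mem_nhds]
        intro r hr
        have h3 : ∀ᶠ s in 𝓝 r, Link R (ω r) (ω s) := hωc.continuousAt.eventually (hωn r)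
        filter_upwards [h3] with s hs hs'
        exact hr (Link.trans hs' hs.symm)
      · rw [isOpen_iff_mem_nhds]
        intro r hr
        have h3 : ∀ᶠ s in 𝓝 r, Link R (ω r) (ω s) := hωc.continuousAt.eventually (hωn r)
        filter_upwards [h3] with s hs
        exact Link.trans hr hs
    have h3 := hclopen.eq_univ ⟨0, Relation.ReflTransGen.refl⟩
    intro r
    have : r ∈ {r | Link R (ω 0) (ω r)} := by rw [h3]; trivial
    exact this
  have h5 : Link R z (ω 0) := by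
    have h6 := hzA.step T
    simp only [ω, hγ0]
    exact h6
  have h7 : Link R w' (ω 1) := by
    have h8 : App R w' E₁ := ⟨a, M, ha, hM, hw2⟩
    have h6 := h8.step T
    simp only [ω, hγ1, ht]
    exact h6
  exact (((hxz.trans h5).trans (hω 1)).trans h7.symm).trans (hw1.symm.trans hyw.symm)

end

end Pool.Agent.RRG
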