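import Pool.Agent.RRG.Push

/-!
# Smooth flexible varieties whose ring is generated by kernels are RR-spaces
-/

set_option autoImplicit false

open Topology Filter

namespace Pool.Agent.RRG

open Pool.Agent.RR

variable {N : ℕ}

/-- **Main theorem**: a smooth flexible affine variety of dimension at least two, whose coordinate
ring is generated by the kernels of nonzero LNDs, is an RR-space. -/
theorem isRRSpace_of_HD (I : Ideal (MvPolynomial (Fin N) ℂ)) (hI : I.IsPrime) {n : ℕ}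
    (hn : 2 ≤ n) (hsm : IsSmoothOfDim I n) (hfl : IsFlexible I)
    (hHD : HD (CoordRing I) = ⊤) : IsRRSpace (variety I) := by
  have hdom : IsDomain (CoordRing I) := (Ideal.Quotient.isDomain_iff_prime I).2 hI
  have hn0 : 0 < n := by omega
  have hflex := flexAlg_of_isFlexible I hsm hfl
  -- a nonzero derivation
  obtain ⟨D, hD⟩ : ∃ D : LND (CoordRing I), D.D ≠ 0 := by
    obtain ⟨χ⟩ : Nonempty (CoordRing I →ₐ[ℂ] ℂ) := exists_point
    obtain ⟨E, f, hdet⟩ := hflex χ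
    refine ⟨E ⟨0, hn0⟩, fun h => hdet ?_⟩
    apply Matrix.det_eq_zero_of_column_eq_zero ⟨0, hn0⟩
    intro i
    simp [h]
  obtain ⟨a, haD, hat, hag⟩ := D.exists_good_ker hn hsm.1 hD
  obtain ⟨L, hL1, hL2⟩ := exists_family (Calg_eq_top_of_HD hn0 hsm.1 hflex hHD hat)
    (Cideal_eq_top hn0 hsm.1 hflex hat)
  refine isRRSpace_of_data I D hD a hat haD Polynomial.X ?_
    (exists_sparse_radii I a L hL1 hL2 Polynomial.X Polynomial.X_ne_zero)
  rintro x y ⟨hx1, hx2, hx3⟩ ⟨hy1, hy2, hy3⟩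
  simp only [Polynomial.eval_X] at hx3 hy3
  obtain ⟨t, s, Φ, hΦ, hΦe⟩ := exists_push hn hsm hfl hHD D x y
    (fun k => hag _ (hx3 k)) (fun k => hag _ (hy3 k))
  obtain ⟨φ₁, hφ₁, hφ₁e⟩ := exists_exp D haD x hx1 hx2 t
  obtain ⟨φ₂, hφ₂, hφ₂e⟩ := exists_exp D haD y hy1 hy2 s
  refine ⟨(φ₁.trans Φ).trans φ₂.symm, (hφ₁.trans hΦ).trans hφ₂.symm, fun k => ?_⟩
  rw [Equiv.trans_apply, Equiv.trans_apply, Equiv.symm_apply_eq]
  rw [← toPt_evalAt I (φ₁ (x k)), hφ₁e, hΦe, ← hφ₂e, toPt_evalAt]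

lemma HD_eq_top_of_isGeneratedByKernels {I : Ideal (MvPolynomial (Fin N) ℂ)}
    (h : IsGeneratedByKernels I) : HD (CoordRing I) = ⊤ := by
  rw [eq_top_iff, ← h]
  apply Algebra.adjoin_mono
  rintro f ⟨D, hD, hD0, hf⟩
  exact ⟨mkLND I hD, hD0, hf⟩

end Pool.Agent.RRG
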