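import Pool.Agent.RRG.Chart2

/-!
# Density of nonvanishing, bounds on balls, the image of a chart is constructible
-/

set_option autoImplicit false

open Topology Filter

namespace Pool.Agent.RRG

open Pool.Agent.RR

variable {N : ℕ} {I : Ideal (MvPolynomial (Fin N) ℂ)}

/-- elements of the coordinate ring are bounded on balls -/
lemma exists_ball_bound (b : CoordRing I) (R : ℝ) :
    ∃ C : ℝ, 0 ≤ C ∧ ∀ z : variety I, ‖(z : Fin N → ℂ)‖ ≤ R → ‖evalAt I z b‖ ≤ C := by
  obtain ⟨p, rfl⟩ := Ideal.Quotient.mk_surjective b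
  obtain ⟨C, hC⟩ := (isCompact_closedBall (0 : Fin N → ℂ) R).exists_bound_of_continuousOn
    (MvPolynomial.continuous_eval p).continuousOn
  refine ⟨max C 0, le_max_right _ _, fun z hz => ?_⟩
  rw [evalAt_mk]
  exact (hC z (by simpa using hz)).trans (le_max_left _ _)

lemma continuous_toPt {Y : Type*} [TopologicalSpace Y] {χ : Y → (CoordRing I →ₐ[ℂ] ℂ)}
    (h : ∀ b, Continuous fun y => χ y b) : Continuous fun y => toPt I (χ y) :=
  Continuous.subtype_mk (continuous_pi fun _ => h _) _

lemma continuousAt_toPt {Y : Type*} [TopologicalSpace Y] {χ : Y → (CoordRing I →ₐ[ℂ] ℂ)} {y₀ : Y}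
    (h : ∀ b, ContinuousAt (fun y => χ y b) y₀) : ContinuousAt (fun y => toPt I (χ y)) y₀ := by
  have h1 : ContinuousAt (fun y => (toPt I (χ y) : Fin N → ℂ)) y₀ :=
    continuousAt_pi.2 fun _ => h _
  exact (IsInducing.subtypeVal.continuousAt_iff).2 h1

/-- a nonzero function does not vanish on a nonempty open set -/
theorem exists_ne_zero_near [IsDomain (CoordRing I)] {n : ℕ} (hn : 0 < n)
    (htr : Algebra.trdeg ℂ (CoordRing I) = n) (hflex : FlexAlg (CoordRing I) n)
    {b : CoordRing I} (hb : b ≠ 0) (x : variety I) {U : Set (variety I)} (hU : U ∈ 𝓝 x) :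
    ∃ y ∈ U, evalAt I y b ≠ 0 := by
  by_contra hcon
  push Not at hcon
  apply hb
  apply eq_zero_of_orbit hn htr hflex (evalAt I x)
  intro L
  obtain ⟨P, hP⟩ := (polyCurve_phi_scale L (polyCurve_const b)).functional
    (evalAt I x).toLinearMap
  have hc : Continuous fun z : ℂ =>
      toPt I ((evalAt I x).comp (phi (scale z L) : CoordRing I →ₐ[ℂ] CoordRing I)) := by
    apply continuous_toPt
    intro b'
    obtain ⟨P', hP'⟩ := (polyCurve_phi_scale L (polyCurve_const b')).functional
      (evalAt I x).toLinearMap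
    have : (fun z : ℂ => ((evalAt I x).comp
        (phi (scale z L) : CoordRing I →ₐ[ℂ] CoordRing I)) b') = fun z => P'.eval z := by
      funext z
      exact hP' z
    rw [this]
    exact P'.continuous
  have h0 : toPt I ((evalAt I x).comp (phi (scale 0 L) : CoordRing I →ₐ[ℂ] CoordRing I)) = x := by
    rw [phi_scale_zero]
    exact toPt_evalAt I x
  have hP0 : P = 0 := by
    apply poly_eq_zero_of_eventually
    have h1 := hc.continuousAt (x := (0 : ℂ))
    have h2 : U ∈ 𝓝 (toPt I ((evalAt I x).comp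
        (phi (scale 0 L) : CoordRing I →ₐ[ℂ] CoordRing I))) := by rw [h0]; exact hU
    filter_upwards [h1 h2] with z hz
    have h3 := hcon _ hz
    rw [evalAt_toPt] at h3
    rw [← hP]
    exact h3
  have h1 := hP 1
  rw [hP0, Polynomial.eval_zero, scale_one] at h1
  exact h1

/-- the orbit polynomial in `n` variables -/
noncomputable def kappa {n : ℕ} (E : ℕ → LND (CoordRing I)) (x : variety I) :
    CoordRing I →ₐ[ℂ] MvPolynomial (Fin n) ℂ :=
  (MvPolynomial.aeval (fun k : ℕ => if h : k < n then
    (MvPolynomial.X ⟨k, h⟩ : MvPolynomial (Fin n) ℂ) else 0)).comp (Xi E n (evalAt I x))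

lemma eval_kappa {n : ℕ} (E : ℕ → LND (CoordRing I)) (x : variety I) (t : Fin n → ℂ)
    (b : CoordRing I) : MvPolynomial.eval t (kappa E x b) = evalAt I (chart I E x t) b := by
  rw [chart, evalAt_toPt, chain_apply]
  have : ∀ P : MvPolynomial ℕ ℂ, MvPolynomial.eval t (MvPolynomial.aeval (fun k : ℕ =>
      if h : k < n then (MvPolynomial.X ⟨k, h⟩ : MvPolynomial (Fin n) ℂ) else 0) P) =
      MvPolynomial.eval (ext t) P := by
    intro P
    induction P using MvPolynomial.induction_on with
    | C a => simp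
    | add p q hp hq => simp only [map_add, hp, hq]
    | mul_X p k hp =>
      simp only [map_mul, hp, MvPolynomial.aeval_X, MvPolynomial.eval_X]
      congr 1
      unfold ext
      split_ifs <;> simp
  exact this _

theorem kappa_injective [IsDomain (CoordRing I)] {n : ℕ} (hn : 0 < n)
    (hsm : IsSmoothOfDim I n) (hfl : IsFlexible I) (hflex : FlexAlg (CoordRing I) n)
    (E : ℕ → LND (CoordRing I)) (x : variety I)
    (hli : LinearIndependent ℂ (fun j : Fin n => valueAt I (E j).D x)) {b : CoordRing I}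
    (hb : kappa (n := n) E x b = 0) : b = 0 := by
  by_contra hb0
  obtain ⟨τ, -, -, hτ⟩ := exists_chart_inverse I hsm hfl E x hli
  have hU : {y : variety I | chart I E x (τ y) = y} ∈ 𝓝 x := by
    have h1 : ∀ᶠ y : variety I in 𝓝 x, ∀ hy : (y : Fin N → ℂ) ∈ variety I,
        chart I E x (τ y) = ⟨y, hy⟩ := continuous_subtype_val.continuousAt.eventually hτ
    filter_upwards [h1] with y hy
    exact hy y.2
  obtain ⟨y, hy, hyb⟩ := exists_ne_zero_near hn hsm.1 hflex hb0 x hU
  apply hyb
  have h1 : chart I E x (τ y) = y := hy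
  rw [← h1, ← eval_kappa, hb, map_zero]

/-- **The image of a chart contains the nonvanishing locus of a nonzero function.** -/
theorem exists_image_chart [IsDomain (CoordRing I)] {n : ℕ} (hn : 0 < n)
    (hsm : IsSmoothOfDim I n) (hfl : IsFlexible I) (hflex : FlexAlg (CoordRing I) n)
    (E : ℕ → LND (CoordRing I)) (x : variety I)
    (hli : LinearIndependent ℂ (fun j : Fin n => valueAt I (E j).D x)) :
    ∃ c : CoordRing I, c ≠ 0 ∧ ∀ y : variety I, evalAt I y c ≠ 0 →
      ∃ t : Fin n → ℂ, chart I E x t = y := by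
  let κ : CoordRing I →ₐ[ℂ] MvPolynomial (Fin n) ℂ := kappa E x
  have hinj : Function.Injective (κ : CoordRing I →+* MvPolynomial (Fin n) ℂ) := by
    rw [injective_iff_map_eq_zero]
    intro b hb
    exact kappa_injective hn hsm hfl hflex E x hli hb
  have hft : (κ : CoordRing I →+* MvPolynomial (Fin n) ℂ).FiniteType := by
    have h1 : ((κ : CoordRing I →+* MvPolynomial (Fin n) ℂ).comp
        (algebraMap ℂ (CoordRing I))).FiniteType := by
      have h2 : (κ : CoordRing I →+* MvPolynomial (Fin n) ℂ).comp (algebraMap ℂ (CoordRing I)) =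
          algebraMap ℂ (MvPolynomial (Fin n) ℂ) := by
        ext1 z
        exact κ.commutes z
      rw [h2, RingHom.finiteType_algebraMap]
      infer_instance
    exact RingHom.FiniteType.of_comp_finiteType h1
  have hfp : (κ : CoordRing I →+* MvPolynomial (Fin n) ℂ).FinitePresentation :=
    RingHom.FinitePresentation.of_finiteType.1 hft
  obtain ⟨S, hS⟩ := PrimeSpectrum.exists_constructibleSetData_iff.2
    (PrimeSpectrum.isConstructible_range_comap hfp)
  -- the generic point
  have hgen : (⟨⊥, Ideal.isPrime_bot⟩ : PrimeSpectrum (CoordRing I)) ∈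
      Set.range (PrimeSpectrum.comap (κ : CoordRing I →+* MvPolynomial (Fin n) ℂ)) := by
    refine ⟨⟨⊥, Ideal.isPrime_bot⟩, ?_⟩
    apply PrimeSpectrum.ext
    change Ideal.comap _ ⊥ = ⊥
    rw [← RingHom.ker_eq_comap_bot]
    exact (RingHom.injective_iff_ker_eq_bot _).1 hinj
  rw [← hS] at hgen
  obtain ⟨C, hC, hCg⟩ := Set.mem_iUnion₂.1 hgen
  refine ⟨C.f, ?_, ?_⟩
  · intro h
    apply hCg.2
    rw [h]
    simp
  · intro y hy
    -- the maximal ideal of `y`
    let P : Ideal (CoordRing I) := RingHom.ker (evalAt I y)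
    have hP : P.IsMaximal := RingHom.ker_isMaximal_of_surjective _ fun z =>
      ⟨algebraMap ℂ _ z, AlgHom.commutes _ z⟩
    have hmem : (⟨P, hP.isPrime⟩ : PrimeSpectrum (CoordRing I)) ∈
        Set.range (PrimeSpectrum.comap (κ : CoordRing I →+* MvPolynomial (Fin n) ℂ)) := by
      rw [← hS]
      refine Set.mem_iUnion₂.2 ⟨C, hC, ?_, ?_⟩
      · rw [PrimeSpectrum.mem_zeroLocus]
        rintro _ ⟨i, rfl⟩
        have h1 := hCg.1
        rw [PrimeSpectrum.mem_zeroLocus] at h1
        have h2 : C.g i ∈ (⊥ : Ideal (CoordRing I)) := h1 ⟨i, rfl⟩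
        rw [Ideal.mem_bot] at h2
        rw [h2]
        exact P.zero_mem
      · rw [PrimeSpectrum.mem_zeroLocus, Set.singleton_subset_iff]
        intro h
        exact hy h
    obtain ⟨Q, hQ⟩ := hmem
    have hQ' : Ideal.comap (κ : CoordRing I →+* MvPolynomial (Fin n) ℂ) Q.asIdeal = P :=
      congrArg PrimeSpectrum.asIdeal hQ
    obtain ⟨M, hM, hQM⟩ := Ideal.exists_le_maximal Q.asIdeal Q.2.ne_top
    obtain ⟨ψ, hψ⟩ := exists_point_of_isMaximal M
    have hPM : Ideal.comap (κ : CoordRing I →+* MvPolynomial (Fin n) ℂ) M = P := by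
      symm
      apply hP.eq_of_le
      · exact Ideal.comap_ne_top _ hM.ne_top
      · rw [← hQ']
        exact Ideal.comap_mono hQM
    refine ⟨fun i => ψ (MvPolynomial.X i), ?_⟩
    have h1 : ∀ q : MvPolynomial (Fin n) ℂ,
        MvPolynomial.eval (fun i => ψ (MvPolynomial.X i)) q = ψ q := by
      intro q
      have : (MvPolynomial.aeval (fun i => ψ (MvPolynomial.X i)) :
          MvPolynomial (Fin n) ℂ →ₐ[ℂ] ℂ) = ψ := by
        apply MvPolynomial.algHom_ext
        intro i
        simp
      exact congrFun (congrArg DFunLike.coe this) q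
    have h2 : ∀ b, evalAt I (chart I E x (fun i => ψ (MvPolynomial.X i))) b = evalAt I y b := by
      intro b
      rw [← eval_kappa, h1]
      have h3 : b - algebraMap ℂ _ (evalAt I y b) ∈ P := by
        change evalAt I y _ = 0
        rw [map_sub, AlgHom.commutes]
        exact sub_self _
      rw [← hPM, Ideal.mem_comap] at h3
      have h4 := (hψ _).2 h3
      have h5 : (κ : CoordRing I →+* MvPolynomial (Fin n) ℂ)
          (b - algebraMap ℂ _ (evalAt I y b)) = κ b - algebraMap ℂ _ (evalAt I y b) := by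
        change κ _ = _
        rw [map_sub, AlgHom.commutes]
      rw [h5, map_sub, AlgHom.commutes, sub_eq_zero] at h4
      exact h4
    rw [← toPt_evalAt I (chart I E x _), ← toPt_evalAt I y]
    congr 1
    exact AlgHom.ext h2

end Pool.Agent.RRG
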