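import Pool.Agent.RRG.Approx

/-!
# The infinite composition
-/

set_option autoImplicit false

open Topology Filter

namespace Pool.Agent.RRG

open Pool.Agent.RR

variable {N : ℕ} {I : Ideal (MvPolynomial (Fin N) ℂ)}

lemma isCompact_ball (I : Ideal (MvPolynomial (Fin N) ℂ)) (r : ℝ) :
    IsCompact {z : variety I | ‖(z : Fin N → ℂ)‖ ≤ r} := (isExhaustion_norm I).2.2 r

/-- continuous self-maps are bounded on balls -/
lemma exists_bound_of_continuous {φ : variety I → variety I} (hφ : Continuous φ) (r : ℝ) :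
    ∃ C : ℝ, ∀ z : variety I, ‖(z : Fin N → ℂ)‖ ≤ r → ‖(φ z : Fin N → ℂ)‖ ≤ C := by
  obtain ⟨C, hC⟩ := (isCompact_ball I r).exists_bound_of_continuousOn
    (f := fun z => (φ z : Fin N → ℂ)) (continuous_subtype_val.comp hφ).continuousOn
  exact ⟨C, hC⟩

/-- uniform continuity on balls -/
lemma exists_unif_of_continuous {φ : variety I → variety I} (hφ : Continuous φ) (r : ℝ) {ε : ℝ}
    (hε : 0 < ε) : ∃ δ : ℝ, 0 < δ ∧ ∀ z w : variety I, ‖(z : Fin N → ℂ)‖ ≤ r →
      ‖(w : Fin N → ℂ) - z‖ < δ → ‖(φ w : Fin N → ℂ) - φ z‖ < ε := by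
  have h1 := (isCompact_ball I (r + 1)).uniformContinuousOn_of_continuous hφ.continuousOn
  rw [Metric.uniformContinuousOn_iff] at h1
  obtain ⟨δ, hδ, h⟩ := h1 ε hε
  refine ⟨min δ 1, lt_min hδ one_pos, fun z w hz hw => ?_⟩
  have h2 := hw.trans_le (min_le_left _ _)
  have h3 := hw.trans_le (min_le_right _ _)
  have h4 : ‖(w : Fin N → ℂ)‖ ≤ r + 1 := by
    have h5 := norm_add_le ((w : Fin N → ℂ) - z) (z : Fin N → ℂ)
    rw [sub_add_cancel] at h5
    linarith
  have h5 : ‖(z : Fin N → ℂ)‖ ≤ r + 1 := by linarith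
  have h6 := h w h4 z h5 (by rw [Subtype.dist_eq, dist_eq_norm]; exact h2)
  rwa [Subtype.dist_eq, dist_eq_norm] at h6

/-- orbits are unbounded -/
lemma exists_flow_large (D : LND (CoordRing I)) (x : variety I)
    (hx : ∃ b, evalAt I x (D.D b) ≠ 0) (r : ℝ) :
    ∃ t : ℂ, r < ‖(toPt I (D.flow t (evalAt I x)) : Fin N → ℂ)‖ := by
  obtain ⟨b, hb⟩ := hx
  obtain ⟨C, hC0, hC⟩ := exists_ball_bound b r
  obtain ⟨t, ht⟩ := exists_large_eval (orb_natDegree_pos_of_D D hb) hC0
  refine ⟨t, ?_⟩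
  by_contra hcon
  push Not at hcon
  have h1 := hC _ hcon
  rw [evalAt_toPt, LND.flow_apply] at h1
  exact absurd h1 (not_le.2 ht)

/-- the data carried through the construction -/
structure St (I : Ideal (MvPolynomial (Fin N) ℂ)) where
  /-- the automorphism -/
  Ψ : Equiv.Perm (variety I)
  /-- it is holomorphic -/
  holo : IsHoloAut (variety I) Ψ
  /-- the targets reached so far -/
  F : Finset (variety I)

/-- one stage of the construction -/
theorem exists_stage [IsDomain (CoordRing I)] {n : ℕ} (hn : 2 ≤ n) (hsm : IsSmoothOfDim I n)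
    (hfl : IsFlexible I) (hHD : HD (CoordRing I) = ⊤) (D : LND (CoordRing I))
    (x y : variety I) (hx : ∃ b, evalAt I x (D.D b) ≠ 0) (hy : ∃ b, evalAt I y (D.D b) ≠ 0)
    (k : ℕ) (S : St I) :
    ∃ (t s : ℂ) (θ : Equiv.Perm (variety I)), IsHoloAut (variety I) θ ∧
      θ (S.Ψ (toPt I (D.flow t (evalAt I x)))) = toPt I (D.flow s (evalAt I y)) ∧
      (∀ p ∈ S.F, θ p = p) ∧
      (∀ z : variety I, ‖(z : Fin N → ℂ)‖ ≤ k →
        ‖(θ (S.Ψ z) : Fin N → ℂ) - S.Ψ z‖ < (1 / 2) ^ k) ∧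
      (∀ z : variety I, ‖(z : Fin N → ℂ)‖ ≤ k →
        ‖(S.Ψ.symm (θ.symm z) : Fin N → ℂ) - S.Ψ.symm z‖ < (1 / 2) ^ k) := by
  have hΨc : Continuous S.Ψ := by
    have := S.holo.1.continuous
    exact continuous_induced_rng.2 this
  have hΨsc : Continuous S.Ψ.symm := by
    have := S.holo.2.continuous
    exact continuous_induced_rng.2 this
  obtain ⟨C₁, hC₁⟩ := exists_bound_of_continuous hΨc k
  have hF : ∃ C₂ : ℝ, ∀ p ∈ S.F, ‖((p : variety I) : Fin N → ℂ)‖ ≤ C₂ := by
    refine ⟨∑ p ∈ S.F, ‖((p : variety I) : Fin N → ℂ)‖, fun p hp => ?_⟩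
    exact Finset.single_le_sum (f := fun p : variety I => ‖(p : Fin N → ℂ)‖)
      (fun p _ => norm_nonneg _) hp
  obtain ⟨C₂, hC₂⟩ := hF
  set r := max (max C₁ C₂) k with hr
  obtain ⟨R', hR'⟩ := exists_radius_link hn hsm hfl hHD (r + 1)
  obtain ⟨δ, hδ, hδc⟩ := exists_unif_of_continuous hΨsc (k : ℝ)
    (show (0 : ℝ) < (1 / 2) ^ k by positivity)
  obtain ⟨C₃, hC₃⟩ := exists_bound_of_continuous hΨsc R'
  obtain ⟨t, ht⟩ := exists_flow_large D x hx C₃
  obtain ⟨s, hs⟩ := exists_flow_large D y hy R'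
  have ht' : R' < ‖(S.Ψ (toPt I (D.flow t (evalAt I x))) : Fin N → ℂ)‖ := by
    by_contra hcon
    push Not at hcon
    have := hC₃ _ hcon
    rw [Equiv.symm_apply_apply] at this
    linarith
  obtain ⟨θ, hθ, hθx, hθF, hθn⟩ := exists_near_of_link (hR' _ _ ht' hs) (r := r) (by linarith)
    S.F (fun p hp => (hC₂ p hp).trans ((le_max_right _ _).trans (le_max_left _ _)))
    (ε := min δ ((1 / 2) ^ k)) (lt_min hδ (by positivity))
  refine ⟨t, s, θ, hθ, hθx, hθF, fun z hz => ?_, fun z hz => ?_⟩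
  · have h1 := (hθn (S.Ψ z) ((hC₁ z hz).trans ((le_max_left _ _).trans (le_max_left _ _)))).1
    exact h1.trans_le (min_le_right _ _)
  · have h1 := (hθn z (hz.trans (le_max_right _ _))).2
    exact hδc z _ hz (h1.trans_le (min_le_left _ _))

/-- geometric convergence -/
lemma exists_limit (f : ℕ → variety I) (j : ℕ)
    (h : ∀ k, j ≤ k → ‖(f (k + 1) : Fin N → ℂ) - f k‖ < (1 / 2) ^ k) :
    ∃ L : variety I, Tendsto f atTop (𝓝 L) ∧
      ∀ k, j ≤ k → dist (f k) L ≤ 2 * (1 / 2) ^ k := by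
  have hcomp : CompleteSpace (variety I) := (isClosed_variety I).completeSpace_coe
  have hd : ∀ n, dist (f (n + j)) (f (n + 1 + j)) ≤ (1 / 2) ^ j * (1 / 2) ^ n := by
    intro n
    have h1 := h (n + j) (by omega)
    rw [Subtype.dist_eq, dist_comm, dist_eq_norm]
    have h2 : n + j + 1 = n + 1 + j := by ring
    rw [h2] at h1
    rw [← pow_add, add_comm j n]
    exact h1.le
  have hcs : CauchySeq fun n => f (n + j) :=
    cauchySeq_of_le_geometric (1 / 2) ((1 / 2) ^ j) (by norm_num) hd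
  obtain ⟨L, hL⟩ := cauchySeq_tendsto_of_complete hcs
  refine ⟨L, (tendsto_add_atTop_iff_nat j).1 hL, fun k hk => ?_⟩
  have h1 := dist_le_of_le_geometric_of_tendsto (1 / 2) ((1 / 2) ^ j) (by norm_num) hd hL (k - j)
  have h2 : k - j + j = k := by omega
  rw [h2] at h1
  refine h1.trans ?_
  rw [← pow_add]
  have h3 : j + (k - j) = k := by omega
  rw [h3]
  norm_num
  linarith

/-- **The infinite composition.** -/
theorem exists_push [IsDomain (CoordRing I)] {n : ℕ} (hn : 2 ≤ n) (hsm : IsSmoothOfDim I n)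
    (hfl : IsFlexible I) (hHD : HD (CoordRing I) = ⊤) (D : LND (CoordRing I))
    (x y : ℕ → variety I) (hx : ∀ k, ∃ b, evalAt I (x k) (D.D b) ≠ 0)
    (hy : ∀ k, ∃ b, evalAt I (y k) (D.D b) ≠ 0) :
    ∃ (t s : ℕ → ℂ) (Φ : Equiv.Perm (variety I)), IsHoloAut (variety I) Φ ∧
      ∀ k, Φ (toPt I (D.flow (t k) (evalAt I (x k)))) =
        toPt I (D.flow (s k) (evalAt I (y k))) := by
  classical
  choose t s θ hθ hθx hθF hθ1 hθ2 using fun (k : ℕ) (S : St I) =>
    exists_stage hn hsm hfl hHD D (x k) (y k) (hx k) (hy k) k S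
  let next : ℕ → St I → St I := fun k S =>
    ⟨S.Ψ.trans (θ k S), S.holo.trans (hθ k S),
      insert (toPt I (D.flow (s k S) (evalAt I (y k)))) S.F⟩
  let S : ℕ → St I := fun k => Nat.rec ⟨Equiv.refl _, isHoloAut_refl, ∅⟩ (fun k S => next k S) k
  have hS : ∀ k, S (k + 1) = next k (S k) := fun k => rfl
  set x' : ℕ → variety I := fun k => toPt I (D.flow (t k (S k)) (evalAt I (x k))) with hx'
  set y' : ℕ → variety I := fun k => toPt I (D.flow (s k (S k)) (evalAt I (y k))) with hy'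
  have hΨs : ∀ k z, (S (k + 1)).Ψ z = θ k (S k) ((S k).Ψ z) := fun k z => rfl
  have hΨss : ∀ k z, (S (k + 1)).Ψ.symm z = (S k).Ψ.symm ((θ k (S k)).symm z) := fun k z => rfl
  have hFs : ∀ k, (S (k + 1)).F = insert (y' k) (S k).F := fun k => rfl
  -- the targets
  have hmem : ∀ k j, k < j → y' k ∈ (S j).F := by
    intro k j hkj
    induction j with
    | zero => omega
    | succ j ih =>
      rw [hFs]
      rcases Nat.lt_succ_iff_lt_or_eq.1 hkj with h | h
      · exact Finset.mem_insert_of_mem (ih h)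
      · rw [h]; exact Finset.mem_insert_self _ _
  have hval : ∀ k j, k < j → (S j).Ψ (x' k) = y' k := by
    intro k j hkj
    induction j with
    | zero => omega
    | succ j ih =>
      rw [hΨs]
      rcases Nat.lt_succ_iff_lt_or_eq.1 hkj with h | h
      · rw [ih h]
        exact hθF j (S j) _ (hmem k j h)
      · rw [← h]
        exact hθx k (S k)
  -- the limits
  have hl1 : ∀ z : variety I, ∃ L : variety I, Tendsto (fun k => (S k).Ψ z) atTop (𝓝 L) ∧
      ∀ k, ⌈‖(z : Fin N → ℂ)‖⌉₊ ≤ k → dist ((S k).Ψ z) L ≤ 2 * (1 / 2) ^ k := by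
    intro z
    apply exists_limit
    intro k hk
    rw [hΨs]
    exact hθ1 k (S k) z (Nat.ceil_le.1 hk)
  have hl2 : ∀ z : variety I, ∃ L : variety I, Tendsto (fun k => (S k).Ψ.symm z) atTop (𝓝 L) ∧
      ∀ k, ⌈‖(z : Fin N → ℂ)‖⌉₊ ≤ k → dist ((S k).Ψ.symm z) L ≤ 2 * (1 / 2) ^ k := by
    intro z
    apply exists_limit
    intro k hk
    rw [hΨss]
    exact hθ2 k (S k) z (Nat.ceil_le.1 hk)
  choose Φ hΦt hΦd using hl1
  choose Υ hΥt hΥd using hl2
  -- locally uniform convergence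
  have hlu : ∀ (G : ℕ → variety I → variety I) (g : variety I → variety I),
      (∀ (z : variety I) k, ⌈‖(z : Fin N → ℂ)‖⌉₊ ≤ k → dist (G k z) (g z) ≤ 2 * (1 / 2) ^ k) →
      TendstoLocallyUniformly G g atTop := by
    intro G g hG
    rw [Metric.tendstoLocallyUniformly_iff]
    intro ε hε z
    refine ⟨{w : variety I | ‖(w : Fin N → ℂ)‖ < ‖(z : Fin N → ℂ)‖ + 1}, ?_, ?_⟩
    · have h1 : Continuous fun w : variety I => ‖(w : Fin N → ℂ)‖ :=
        continuous_norm.comp continuous_subtype_val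
      exact (isOpen_lt h1 continuous_const).mem_nhds (by simp)
    · have h2 : Tendsto (fun k : ℕ => 2 * (1 / 2 : ℝ) ^ k) atTop (𝓝 (2 * 0)) :=
        (tendsto_pow_atTop_nhds_zero_of_lt_one (by norm_num) (by norm_num)).const_mul 2
      rw [mul_zero] at h2
      filter_upwards [h2.eventually_lt_const hε,
        eventually_ge_atTop ⌈‖(z : Fin N → ℂ)‖ + 1⌉₊] with k hk1 hk2 w hw
      rw [dist_comm]
      refine lt_of_le_of_lt (hG w k ?_) hk1
      exact (Nat.ceil_mono (le_of_lt hw)).trans hk2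
  have hΦlu := hlu (fun k z => (S k).Ψ z) Φ hΦd
  have hΥlu := hlu (fun k z => (S k).Ψ.symm z) Υ hΥd
  have hΨc : ∀ k, Continuous (S k).Ψ := fun k =>
    continuous_induced_rng.2 (S k).holo.1.continuous
  have hΨsc : ∀ k, Continuous (S k).Ψ.symm := fun k =>
    continuous_induced_rng.2 (S k).holo.2.continuous
  have hΦc : Continuous Φ := hΦlu.continuous (Eventually.of_forall hΨc).frequently
  have hΥc : Continuous Υ := hΥlu.continuous (Eventually.of_forall hΨsc).frequently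
  have hcomp : ∀ (G H : ℕ → variety I → variety I) (g h : variety I → variety I),
      TendstoLocallyUniformly G g atTop → Continuous g →
      (∀ z, Tendsto (fun k => H k z) atTop (𝓝 (h z))) → (∀ k z, G k (H k z) = z) →
      ∀ z, g (h z) = z := by
    intro G H g h hG hg hH hGH z
    have h1 : Tendsto (fun k => G k (H k z)) atTop (𝓝 (g (h z))) := by
      apply tendsto_comp_of_locally_uniform_limit hg.continuousAt (hH z)
      intro u hu
      exact hG u hu (h z)
    have h2 : (fun k => G k (H k z)) = fun _ => z := by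
      funext k
      exact hGH k z
    rw [h2] at h1
    exact tendsto_nhds_unique h1 tendsto_const_nhds
  have hΦΥ : ∀ z, Φ (Υ z) = z := hcomp _ _ _ _ hΦlu hΦc hΥt
    (fun k z => (S k).Ψ.apply_symm_apply z)
  have hΥΦ : ∀ z, Υ (Φ z) = z := hcomp _ _ _ _ hΥlu hΥc hΦt
    (fun k z => (S k).Ψ.symm_apply_apply z)
  have hval' : TendstoLocallyUniformly (fun k z => ((S k).Ψ z : Fin N → ℂ))
      (fun z => (Φ z : Fin N → ℂ)) atTop :=
    uniformContinuous_subtype_val.comp_tendstoLocallyUniformly hΦlu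
  have hval'' : TendstoLocallyUniformly (fun k z => ((S k).Ψ.symm z : Fin N → ℂ))
      (fun z => (Υ z : Fin N → ℂ)) atTop :=
    uniformContinuous_subtype_val.comp_tendstoLocallyUniformly hΥlu
  refine ⟨fun k => t k (S k), fun k => s k (S k), ⟨Φ, Υ, hΥΦ, hΦΥ⟩, ⟨?_, ?_⟩, ?_⟩
  · exact IsHolo.of_tendstoLocallyUniformly (by omega) hsm hfl (fun k => (S k).holo.1) hval'
  · exact IsHolo.of_tendstoLocallyUniformly (by omega) hsm hfl (fun k => (S k).holo.2) hval''
  · intro k
    change Φ (x' k) = y' k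
    refine tendsto_nhds_unique (hΦt (x' k)) ?_
    refine tendsto_const_nhds.congr' ?_
    filter_upwards [eventually_gt_atTop k] with j hj
    exact (hval k j hj).symm

end Pool.Agent.RRG
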