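import Pool.Agent.RRG.Auts
import Pool.Agent.RR.Fam
import Pool.Agent.RR.Select
import Pool.Agent.RR.Interp

/-!
# Sparse sets
-/

set_option autoImplicit false

open Topology Filter

namespace Pool.Agent.RRG

open Pool.Agent.RR

/-- a ranking of a sparse set -/
lemma exists_rank {D : Type*} (w : D → ℝ) (R : ℕ → ℝ) (hR : ¬ BddAbove (Set.range R))
    (h : ∀ n : ℕ, 1 ≤ n → {x | w x ≤ R n}.encard ≤ n) :
    ∃ ι : D → ℕ, Function.Injective ι ∧ ∀ x, 1 ≤ ι x → R (ι x) < w x := by
  classical
  have hfin : ∀ n : ℕ, 1 ≤ n → {x | w x ≤ R n}.Finite := fun n hn =>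
    Set.finite_of_encard_le_coe (h n hn)
  -- arbitrarily large `R n` with `n ≥ 1`
  have hlarge : ∀ c : ℝ, ∃ n : ℕ, 1 ≤ n ∧ c < R n := by
    intro c
    by_contra hcon
    push Not at hcon
    apply hR
    refine ⟨max c (R 0), ?_⟩
    rintro _ ⟨n, rfl⟩
    rcases Nat.eq_zero_or_pos n with rfl | hn
    · exact le_max_right _ _
    · exact (hcon n hn).trans (le_max_left _ _)
  have hfin' : ∀ c : ℝ, {x | w x ≤ c}.Finite := by
    intro c
    obtain ⟨n, hn, hc⟩ := hlarge c
    exact (hfin n hn).subset fun x hx => le_trans hx hc.le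
  have hcount : Countable D := by
    rw [← Set.countable_univ_iff]
    have : (Set.univ : Set D) ⊆ ⋃ n : ℕ, {x | w x ≤ n} := by
      intro x _
      obtain ⟨n, hn⟩ := exists_nat_ge (w x)
      exact Set.mem_iUnion.2 ⟨n, hn⟩
    exact (Set.countable_iUnion fun n : ℕ => (hfin' (n : ℝ)).countable).mono this
  obtain ⟨j, hj⟩ := exists_injective_nat D
  let r : D → D → Prop := fun y x => w y < w x ∨ (w y = w x ∧ j y < j x)
  have hrfin : ∀ x, {y | r y x}.Finite := fun x =>
    (hfin' (w x)).subset fun y hy => by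
      rcases hy with h1 | h1
      · exact h1.le
      · exact h1.1.le
  have hmono : ∀ x x', r x x' → {y | r y x}.ncard < {y | r y x'}.ncard := by
    intro x x' hxx'
    apply Set.ncard_lt_ncard _ (hrfin x')
    constructor
    · intro y hy
      rcases hy with h1 | h1 <;> rcases hxx' with h2 | h2
      · exact Or.inl (h1.trans h2)
      · exact Or.inl (by rw [← h2.1]; exact h1)
      · exact Or.inl (by rw [h1.1]; exact h2)
      · exact Or.inr ⟨h1.1.trans h2.1, h1.2.trans h2.2⟩
    · intro hsub
      have : r x x := hsub hxx'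
      rcases this with h1 | h1
      · exact lt_irrefl _ h1
      · exact lt_irrefl _ h1.2
  refine ⟨fun x => {y | r y x}.ncard, ?_, ?_⟩
  · intro x x' hxx'
    by_contra hne
    have htri : r x x' ∨ r x' x := by
      rcases lt_trichotomy (w x) (w x') with h1 | h1 | h1
      · exact Or.inl (Or.inl h1)
      · rcases lt_trichotomy (j x) (j x') with h2 | h2 | h2
        · exact Or.inl (Or.inr ⟨h1, h2⟩)
        · exact absurd (hj h2) hne
        · exact Or.inr (Or.inr ⟨h1.symm, h2⟩)
      · exact Or.inr (Or.inl h1)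
    rcases htri with h1 | h1
    · have := hmono _ _ h1
      simp only at hxx'
      omega
    · have := hmono _ _ h1
      simp only at hxx'
      omega
  · intro x hx
    by_contra hcon
    push Not at hcon
    set n := {y | r y x}.ncard with hn
    have h1 : {y | r y x}.ncard < {y | w y ≤ R n}.ncard := by
      apply Set.ncard_lt_ncard _ (hfin n hx)
      constructor
      · intro y hy
        refine le_trans ?_ hcon
        rcases hy with h1 | h1
        · exact h1.le
        · exact h1.1.le
      · intro hsub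
        have : r x x := hsub hcon
        rcases this with h1 | h1
        · exact lt_irrefl _ h1
        · exact lt_irrefl _ h1.2
    have h2 := h n hx
    rw [← (hfin n hx).cast_ncard_eq] at h2
    have h3 : {y | w y ≤ R n}.ncard ≤ n := by exact_mod_cast h2
    omega

/-- norm bound in terms of the coefficients -/
lemma exists_norm_bound {N : ℕ} {I : Ideal (MvPolynomial (Fin N) ℂ)} (c : ℕ → CoordRing I)
    (hc : Algebra.adjoin ℂ (Set.range c) = ⊤) (Λ : ℝ) :
    ∃ R : ℝ, ∀ x : variety I, (∀ n, ‖evalAt I x (c n)‖ ≤ Λ) → ‖(x : Fin N → ℂ)‖ ≤ R := by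
  -- each coordinate is a polynomial in the coefficients
  have h1 : ∀ i : Fin N, ∃ Q : MvPolynomial ℕ ℂ,
      MvPolynomial.aeval c Q = Ideal.Quotient.mk I (MvPolynomial.X i) := by
    intro i
    have : Ideal.Quotient.mk I (MvPolynomial.X i) ∈ Algebra.adjoin ℂ (Set.range c) := by
      rw [hc]; trivial
    rw [Algebra.adjoin_range_eq_range_aeval] at this
    exact this
  choose Q hQ using h1
  set K : Set (ℕ → ℂ) := Set.pi Set.univ fun _ => Metric.closedBall (0 : ℂ) Λ with hK
  have hKc : IsCompact K := isCompact_univ_pi fun _ => isCompact_closedBall _ _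
  have h2 : ∀ i, ∃ B : ℝ, ∀ s ∈ K, ‖MvPolynomial.eval s (Q i)‖ ≤ B := fun i =>
    hKc.exists_bound_of_continuousOn (MvPolynomial.continuous_eval (Q i)).continuousOn
  choose B hB using h2
  refine ⟨∑ i, |B i|, fun x hx => ?_⟩
  rw [pi_norm_le_iff_of_nonneg (Finset.sum_nonneg fun i _ => abs_nonneg _)]
  intro i
  have h3 : (x : Fin N → ℂ) i = MvPolynomial.eval (fun n => evalAt I x (c n)) (Q i) := by
    have h4 : (x : Fin N → ℂ) i = evalAt I x (Ideal.Quotient.mk I (MvPolynomial.X i)) := by
      rw [evalAt_mk, MvPolynomial.eval_X]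
    rw [h4, ← hQ i]
    have : (MvPolynomial.aeval (fun n => evalAt I x (c n)) : MvPolynomial ℕ ℂ →ₐ[ℂ] ℂ) =
        (evalAt I x).comp (MvPolynomial.aeval c) := by
      apply MvPolynomial.algHom_ext
      intro n
      simp
    exact (congrFun (congrArg DFunLike.coe this) (Q i)).symm
  rw [h3]
  have hmem : (fun n => evalAt I x (c n)) ∈ K := by
    intro n _
    simpa using hx n
  calc ‖MvPolynomial.eval (fun n => evalAt I x (c n)) (Q i)‖ ≤ B i := hB i _ hmem
    _ ≤ |B i| := le_abs_self _
    _ ≤ ∑ i, |B i| := Finset.single_le_sum (f := fun i => |B i|) (fun i _ => abs_nonneg _)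
        (Finset.mem_univ i)

/-- the permutation given by a family -/
noncomputable def famPerm {A : Type*} [CommRing A] [Algebra ℂ A] :
    List (LND A × ℕ) → ℂ → Equiv.Perm (A →ₐ[ℂ] ℂ)
  | [], _ => Equiv.refl _
  | ((E, w) :: L), z => (flowPerm E (z ^ w)).trans (famPerm L z)

lemma famPerm_apply {A : Type*} [CommRing A] [Algebra ℂ A] (L : List (LND A × ℕ)) (z : ℂ)
    (χ : A →ₐ[ℂ] ℂ) : famPerm L z χ = fam L z χ := by
  induction L generalizing χ with
  | nil => rfl
  | cons p L ih =>
    obtain ⟨E, w⟩ := p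
    simp only [famPerm, fam, Equiv.trans_apply, ih]
    rfl

lemma toVar_trans {N : ℕ} (I : Ideal (MvPolynomial (Fin N) ℂ))
    (φ ψ : Equiv.Perm (CoordRing I →ₐ[ℂ] ℂ)) :
    toVar I (φ.trans ψ) = (toVar I φ).trans (toVar I ψ) := by
  ext1 x
  simp [toVar]

lemma isHoloAut_fam {N : ℕ} (I : Ideal (MvPolynomial (Fin N) ℂ)) (L : List (LND (CoordRing I) × ℕ))
    (z : ℂ) : IsHoloAut (variety I) (toVar I (famPerm L z)) := by
  induction L with
  | nil =>
    have : toVar I (famPerm ([] : List (LND (CoordRing I) × ℕ)) z) = Equiv.refl _ := by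
      ext1 x
      simp [toVar, famPerm]
    rw [this]
    exact isHoloAut_refl
  | cons p L ih =>
    obtain ⟨E, w⟩ := p
    simp only [famPerm, toVar_trans]
    exact (isHoloAut_flow I E _).trans ih

lemma exists_root_bound (P : Polynomial ℂ) (hP : P ≠ 0) :
    ∃ B : ℝ, 0 < B ∧ ∀ z : ℂ, B ≤ ‖z‖ → P.eval z ≠ 0 := by
  classical
  refine ⟨∑ r ∈ P.roots.toFinset, ‖r‖ + 1, by positivity, fun z hz h0 => ?_⟩
  have hmem : z ∈ P.roots.toFinset := by
    rw [Multiset.mem_toFinset, Polynomial.mem_roots hP]
    exact h0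
  have : ‖z‖ ≤ ∑ r ∈ P.roots.toFinset, ‖r‖ :=
    Finset.single_le_sum (f := fun r : ℂ => ‖r‖) (fun r _ => norm_nonneg r) hmem
  linarith

/-- The key statement on sparse sets: there are radii such that each sparse set can be moved by an
automorphism to a set on which `a` is injective, proper and avoids the zeros of `P`. -/
theorem exists_sparse_radii {N : ℕ} (I : Ideal (MvPolynomial (Fin N) ℂ)) (a : CoordRing I)
    (L : List (LND (CoordRing I) × ℕ))
    (hgen : Algebra.adjoin ℂ (Set.range (H L a).coeff) = ⊤)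
    (hpos : ∀ χ : CoordRing I →ₐ[ℂ] ℂ, 0 < ((H L a).map (χ : CoordRing I →+* ℂ)).natDegree)
    (P : Polynomial ℂ) (hP : P ≠ 0) :
    ∃ R : ℕ → ℝ, (∀ n, 0 < R n) ∧ ¬ BddAbove (Set.range R) ∧
      ∀ D : Set (variety I),
        (∀ n : ℕ, 1 ≤ n → {x ∈ D | ‖(x : Fin N → ℂ)‖ ≤ R n}.encard ≤ n) →
        ∃ g : Equiv.Perm (variety I), IsHoloAut (variety I) g ∧
          Set.InjOn (fun x => evalAt I (g x) a) D ∧
          (∀ r : ℝ, {x ∈ D | ‖evalAt I (g x) a‖ ≤ r}.Finite) ∧
          ∀ x ∈ D, P.eval (evalAt I (g x) a) ≠ 0 := by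
  classical
  set d := (H L a).natDegree with hd
  obtain ⟨B, hB0, hB⟩ := exists_root_bound P hP
  choose R₀ hR₀ using fun k : ℕ => exists_norm_bound (H L a).coeff hgen ((k + 1 + B) / eta d k)
  refine ⟨fun k => max (R₀ k) (k + 1), fun n => lt_max_of_lt_right (by positivity), ?_, ?_⟩
  · rintro ⟨b, hb⟩
    obtain ⟨n, hn⟩ := exists_nat_gt b
    have h1 : max (R₀ n) ((n : ℝ) + 1) ≤ b := hb ⟨n, rfl⟩
    have := (le_max_right (R₀ n) ((n : ℝ) + 1)).trans h1
    linarith
  · intro D hD
    obtain ⟨ι, hι, hιR⟩ := exists_rank (D := D) (fun x => ‖((x : variety I) : Fin N → ℂ)‖)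
      (fun k => max (R₀ k) ((k : ℝ) + 1)) (by
        rintro ⟨b, hb⟩
        obtain ⟨n, hn⟩ := exists_nat_gt b
        have h1 : max (R₀ n) ((n : ℝ) + 1) ≤ b := hb ⟨n, rfl⟩
        have := (le_max_right (R₀ n) ((n : ℝ) + 1)).trans h1
        linarith) (by
        intro n hn
        refine le_trans ?_ (hD n hn)
        have : (Subtype.val '' {x : D | ‖((x : variety I) : Fin N → ℂ)‖ ≤
            max (R₀ n) ((n : ℝ) + 1)}) ⊆
            {x ∈ D | ‖(x : Fin N → ℂ)‖ ≤ max (R₀ n) ((n : ℝ) + 1)} := by
          rintro _ ⟨x, hx, rfl⟩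
          exact ⟨x.2, hx⟩
        rw [← Subtype.val_injective.encard_image]
        exact Set.encard_le_encard this)
    have hcount : Countable D := hι.countable
    -- the polynomials
    let px : variety I → Polynomial ℂ := fun x => (H L a).map (evalAt I x : CoordRing I →+* ℂ)
    let p : ℕ → Polynomial ℂ := fun k => if h : ∃ x : D, ι x = k then px h.choose else 0
    have hpι : ∀ x : D, p (ι x) = px x := by
      intro x
      have h : ∃ y : D, ι y = ι x := ⟨x, rfl⟩
      have h2 : h.choose = x := hι h.choose_spec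
      simp only [p]
      rw [dif_pos h, h2]
    have hpd : ∀ k, (p k).natDegree ≤ d := by
      intro k
      simp only [p]
      split_ifs with h
      · exact Polynomial.natDegree_map_le
      · simp
    let q : (D × D) ⊕ D → Polynomial ℂ := fun s =>
      match s with
      | Sum.inl xy => if xy.1 = xy.2 then 1 else px xy.1 - px xy.2
      | Sum.inr x => P.comp (px x)
    have hq : ∀ s, q s ≠ 0 := by
      rintro (⟨x, y⟩ | x)
      · simp only [q]
        split_ifs with h
        · exact one_ne_zero
        · intro h0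
          apply h
          rw [sub_eq_zero] at h0
          apply Subtype.ext
          have h1 : evalAt I (x : variety I) = evalAt I (y : variety I) := by
            have h2 : (⊤ : Subalgebra ℂ (CoordRing I)) ≤
                AlgHom.equalizer (evalAt I (x : variety I)) (evalAt I (y : variety I)) := by
              rw [← hgen, Algebra.adjoin_le_iff]
              rintro _ ⟨n, rfl⟩
              have := congrArg (fun P => Polynomial.coeff P n) h0
              simp only [px, Polynomial.coeff_map] at this
              exact this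
            ext1 b
            exact h2 (Algebra.mem_top (x := b))
          rw [← toPt_evalAt I (x : variety I), h1, toPt_evalAt]
      · simp only [q]
        intro h0
        rcases Polynomial.comp_eq_zero_iff.1 h0 with h1 | h1
        · exact hP h1
        · have := hpos (evalAt I (x : variety I))
          simp only [px] at h1
          rw [h1.2, Polynomial.natDegree_C] at this
          exact lt_irrefl _ this
    obtain ⟨z, hz1, hz2, hz3⟩ := exists_good_param d p hpd q hq
    have hg : ∀ x : variety I, evalAt I (toVar I (famPerm L z) x) a = (px x).eval z := by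
      intro x
      rw [evalAt_toVar, famPerm_apply, fam_apply]
    have hlarge : ∀ x : D, 1 ≤ ι x → (ι x : ℝ) + 1 + B ≤ ‖(px x).eval z‖ := by
      intro x hx
      have h1 := hιR x hx
      have h2 : ¬ ∀ n, ‖evalAt I (x : variety I) ((H L a).coeff n)‖ ≤
          ((ι x : ℝ) + 1 + B) / eta d (ι x) := by
        intro h
        have h3 := hR₀ (ι x) x h
        have := (le_max_left (R₀ (ι x)) ((ι x : ℝ) + 1)).trans_lt h1
        linarith
      push Not at h2
      obtain ⟨n, hn⟩ := h2
      have h3 := hz2 (ι x) n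
      rw [hpι] at h3
      refine le_trans ?_ h3
      have h4 : ‖(px x).coeff n‖ = ‖evalAt I (x : variety I) ((H L a).coeff n)‖ := by
        simp only [px, Polynomial.coeff_map]
        rfl
      rw [h4]
      have h5 := eta_pos d (ι x)
      rw [div_lt_iff₀ h5] at hn
      linarith
    refine ⟨toVar I (famPerm L z), isHoloAut_fam I L z, ?_, ?_, ?_⟩
    · intro x hx y hy hxy
      simp only [hg] at hxy
      by_contra hne
      have h1 := hz3 (Sum.inl (⟨x, hx⟩, ⟨y, hy⟩))
      have h2 : (⟨x, hx⟩ : D) ≠ ⟨y, hy⟩ := fun h => hne (congrArg Subtype.val h)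
      simp only [q] at h1
      rw [if_neg h2, Polynomial.eval_sub, hxy, sub_self] at h1
      exact h1 rfl
    · intro r
      have hfin : {x : D | ‖(px x).eval z‖ ≤ r}.Finite := by
        have h1 : ι '' {x : D | ‖(px x).eval z‖ ≤ r} ⊆ {k : ℕ | (k : ℝ) ≤ max r 0} := by
          rintro _ ⟨x, hx, rfl⟩
          by_cases h : 1 ≤ ι x
          · have h2 := (hlarge x h).trans hx
            change (ι x : ℝ) ≤ max r 0
            have := le_max_left r 0
            linarith
          · have : ι x = 0 := by omega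
            change (ι x : ℝ) ≤ max r 0
            rw [this]
            simp
        have h2 : {k : ℕ | (k : ℝ) ≤ max r 0}.Finite := by
          obtain ⟨m, hm⟩ := exists_nat_ge (max r 0)
          refine (Set.finite_le_nat m).subset fun k hk => ?_
          have : (k : ℝ) ≤ m := le_trans hk hm
          exact_mod_cast this
        exact Set.Finite.of_finite_image (h2.subset h1) hι.injOn
      have : {x ∈ D | ‖evalAt I (toVar I (famPerm L z) x) a‖ ≤ r} =
          Subtype.val '' {x : D | ‖(px x).eval z‖ ≤ r} := by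
        ext x
        constructor
        · rintro ⟨hx, hxr⟩
          refine ⟨⟨x, hx⟩, ?_, rfl⟩
          rw [hg] at hxr
          exact hxr
        · rintro ⟨y, hy, rfl⟩
          refine ⟨y.2, ?_⟩
          rw [hg]
          exact hy
      rw [this]
      exact hfin.image _
    · intro x hx
      rw [hg]
      have h1 := hz3 (Sum.inr ⟨x, hx⟩)
      simp only [q] at h1
      rwa [Polynomial.eval_comp] at h1

end Pool.Agent.RRG
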